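import Pool.Agent.H600Z.IdC.Defs

/-! Deterministic runs along lists, and the backward (causal past) lemmas. -/

open scoped Classical

noncomputable section

namespace Pool.Agent.H600Z.IdC

variable {n : ℕ} {R V I : Type}

/-- Deterministic programs. -/
abbrev Prog (n : ℕ) (R V I : Type) := Fin n → List (Option V) → Act R V I

def nx (P : Prog n R V I) (C : Config n R V) (q : Fin n) : Act R V I := P q (C.hist q)

def st (P : Prog n R V I) (C : Config n R V) (q : Fin n) : Config n R V :=
  C.perform q (nx P C q)

def runL (P : Prog n R V I) (C : Config n R V) (l : List (Fin n)) : Config n R V :=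
  l.foldl (st P) C

variable {P : Prog n R V I}

@[simp] lemma runL_nil (C : Config n R V) : runL P C [] = C := rfl

@[simp] lemma runL_cons (C : Config n R V) (q : Fin n) (l : List (Fin n)) :
    runL P C (q :: l) = runL P (st P C q) l := rfl

lemma runL_append (C : Config n R V) (l l' : List (Fin n)) :
    runL P C (l ++ l') = runL P (runL P C l) l' := by
  simp [runL, List.foldl_append]

lemma perform_hist_ne (C : Config n R V) {q x : Fin n} (a : Act R V I) (h : x ≠ q) :
    (C.perform q a).hist x = C.hist x := by
  cases a <;> simp [Config.perform, Function.update_of_ne h]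

lemma st_hist_ne (C : Config n R V) {q x : Fin n} (h : x ≠ q) : (st P C q).hist x = C.hist x :=
  perform_hist_ne C _ h

lemma runL_hist_notMem {x : Fin n} : ∀ (l : List (Fin n)) (C : Config n R V), x ∉ l →
    (runL P C l).hist x = C.hist x
  | [], _, _ => rfl
  | q :: l, C, h => by
    rw [List.mem_cons, not_or] at h
    rw [runL_cons, runL_hist_notMem l _ h.2, st_hist_ne C h.1]

lemma nx_congr {C C' : Config n R V} {q : Fin n} (h : C'.hist q = C.hist q) :
    nx P C' q = nx P C q := by
  simp [nx, h]

lemma nx_runL_notMem {x : Fin n} (l : List (Fin n)) (C : Config n R V) (h : x ∉ l) :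
    nx P (runL P C l) x = nx P C x := nx_congr (runL_hist_notMem l C h)

lemma runL_congr {P' : Prog n R V I} : ∀ (l : List (Fin n)) (C : Config n R V),
    (∀ q ∈ l, P q = P' q) → runL P C l = runL P' C l
  | [], _, _ => rfl
  | q :: l, C, h => by
    have h1 : st P C q = st P' C q := by
      simp [st, nx, h q (List.mem_cons_self)]
    rw [runL_cons, runL_cons, h1]
    exact runL_congr l _ fun x hx => h x (List.mem_cons_of_mem _ hx)

lemma st_len_le (C : Config n R V) (q x : Fin n) :
    (C.hist x).length ≤ ((st P C q).hist x).length := by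
  by_cases h : x = q
  · subst h
    unfold st
    cases nx P C x <;> simp [Config.perform]
  · rw [st_hist_ne C h]

lemma runL_len_le (x : Fin n) : ∀ (l : List (Fin n)) (C : Config n R V),
    (C.hist x).length ≤ ((runL P C l).hist x).length
  | [], _ => le_rfl
  | q :: l, C => (st_len_le C q x).trans (runL_len_le x l _)

lemma st_out {C : Config n R V} {x : Fin n} {a : I} (h : nx P C x = Act.out a) (q : Fin n) :
    (st P C q).hist x = C.hist x := by
  by_cases hq : x = q
  · subst hq
    simp [st, h, Config.perform]
  · exact st_hist_ne C hq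

lemma runL_out {x : Fin n} {a : I} : ∀ (l : List (Fin n)) (C : Config n R V),
    nx P C x = Act.out a → nx P (runL P C l) x = Act.out a
  | [], _, h => h
  | q :: l, C, h => by
    rw [runL_cons]
    exact runL_out l _ (by rw [nx_congr (st_out h q), h])

lemma runL_len_lt {x : Fin n} : ∀ (l : List (Fin n)) (C : Config n R V), x ∈ l →
    (∀ a, nx P C x ≠ Act.out a) → (C.hist x).length + 1 ≤ ((runL P C l).hist x).length
  | [], _, h, _ => by simp at h
  | q :: l, C, h, h2 => by
    rw [runL_cons]
    by_cases hq : x = q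
    · subst hq
      refine le_trans ?_ (runL_len_le x l _)
      unfold st
      cases h3 : nx P C x with
      | read r => simp [Config.perform]
      | write r v => simp [Config.perform]
      | out a => exact absurd h3 (h2 a)
    · have h3 : x ∈ l := by
        rcases List.mem_cons.1 h with h | h
        · exact absurd h hq
        · exact h
      have h4 := st_hist_ne (P := P) C hq
      have := runL_len_lt l (st P C q) h3 (by rw [nx_congr h4]; exact h2)
      rwa [h4] at this

/-- `C'` agrees with `C` on the histories of `K` and on the registers `Rs`. -/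
def Sim (C' C : Config n R V) (K : Finset (Fin n)) (Rs : Finset R) : Prop :=
  (∀ q ∈ K, C'.hist q = C.hist q) ∧ ∀ r ∈ Rs, C'.mem r = C.mem r

lemma back_write : ∀ (l : List (Fin n)) (C : Config n R V) (K : Finset (Fin n)) (Rs : Finset R),
    l.Nodup → (∀ q ∈ l, ∀ r, nx P C q ≠ Act.read r) →
    ∃ (K' : Finset (Fin n)) (Rs' : Finset R) (l' : List (Fin n)),
      K ⊆ K' ∧ (∀ q ∈ K', q ∈ K ∨ q ∈ l) ∧ Rs' ⊆ Rs ∧
      (∀ q ∈ l, ∀ r v, nx P C q = Act.write r v → r ∉ Rs') ∧
      K'.card + Rs'.card ≤ K.card + Rs.card ∧ (∀ q ∈ l', q ∈ K' ∧ q ∈ l) ∧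
      ∀ C', Sim C' C K' Rs' → Sim (runL P C' l') (runL P C l) K Rs ∧
        ∀ r, (∀ q ∈ l', ∀ v, nx P C q ≠ Act.write r v) → (runL P C' l').mem r = C'.mem r
  | [], C, K, Rs, _, _ =>
    ⟨K, Rs, [], subset_rfl, fun _ h => Or.inl h, subset_rfl, by simp, le_rfl, by simp,
      fun _ h => ⟨h, fun _ _ => rfl⟩⟩
  | q :: t, C, K, Rs, hnd, hw => by
    rw [List.nodup_cons] at hnd
    have hne : ∀ x ∈ t, x ≠ q := fun x hx h => hnd.1 (h ▸ hx)
    have hnx : ∀ x ∈ t, nx P (st P C q) x = nx P C x := fun x hx =>
      nx_congr (st_hist_ne C (hne x hx))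
    obtain ⟨K1, Rs1, l1, h1, h2, h3, h4, h5, h6, h7⟩ := back_write t (st P C q) K Rs hnd.2
      (fun x hx r => by rw [hnx x hx]; exact hw x (List.mem_cons_of_mem _ hx) r)
    cases hq : nx P C q with
    | read r => exact absurd hq (hw q List.mem_cons_self r)
    | out a =>
      have hst : st P C q = C := by simp [st, hq, Config.perform]
      refine ⟨K1, Rs1, l1, h1, fun x hx => (h2 x hx).imp_right (List.mem_cons_of_mem _), h3, ?_,
        h5, fun x hx => ⟨(h6 x hx).1, List.mem_cons_of_mem _ (h6 x hx).2⟩, ?_⟩
      · intro x hx r v hxr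
        rcases List.mem_cons.1 hx with rfl | hx
        · rw [hq] at hxr; cases hxr
        · exact h4 x hx r v (by rw [hnx x hx]; exact hxr)
      · intro C' hC'
        rw [runL_cons]
        rw [hst] at h7 ⊢
        exact h7 C' hC'
    | write r v =>
      have hst : st P C q = ⟨Function.update C.mem r v,
          Function.update C.hist q (none :: C.hist q)⟩ := by simp [st, hq, Config.perform]
      by_cases hk : q ∈ K1 ∨ r ∈ Rs1
      · refine ⟨insert q K1, Rs1.erase r, q :: l1, h1.trans (Finset.subset_insert _ _), ?_,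
          (Finset.erase_subset _ _).trans h3, ?_, ?_, ?_, ?_⟩
        · intro x hx
          rcases Finset.mem_insert.1 hx with rfl | hx
          · exact Or.inr List.mem_cons_self
          · exact (h2 x hx).imp_right (List.mem_cons_of_mem _)
        · intro x hx r' v' hxr
          rcases List.mem_cons.1 hx with rfl | hx
          · rw [hq] at hxr
            cases hxr
            simp
          · intro hmem
            exact h4 x hx r' v' (by rw [hnx x hx]; exact hxr) (Finset.mem_of_mem_erase hmem)
        · rcases hk with hk | hk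
          · rw [Finset.insert_eq_of_mem hk]
            have := Finset.card_erase_le (s := Rs1) (a := r)
            omega
          · have e1 := Finset.card_insert_le q K1
            have e2 := Finset.card_erase_add_one hk
            omega
        · intro x hx
          rcases List.mem_cons.1 hx with rfl | hx
          · exact ⟨Finset.mem_insert_self _ _, List.mem_cons_self⟩
          · exact ⟨Finset.mem_insert_of_mem (h6 x hx).1, List.mem_cons_of_mem _ (h6 x hx).2⟩
        · intro C' hC'
          have hq1 : C'.hist q = C.hist q := hC'.1 q (Finset.mem_insert_self _ _)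
          have hq' : nx P C' q = Act.write r v := by rw [nx_congr hq1, hq]
          have hst' : st P C' q = ⟨Function.update C'.mem r v,
              Function.update C'.hist q (none :: C'.hist q)⟩ := by simp [st, hq', Config.perform]
          have hs : Sim (st P C' q) (st P C q) K1 Rs1 := by
            rw [hst, hst']
            constructor
            · intro x hx
              by_cases hxq : x = q
              · subst hxq; simp [hq1]
              · simp only [Function.update_of_ne hxq]
                exact hC'.1 x (Finset.mem_insert_of_mem hx)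
            · intro r' hr'
              by_cases hrr : r' = r
              · subst hrr; simp
              · simp only [Function.update_of_ne hrr]
                exact hC'.2 r' (Finset.mem_erase.2 ⟨hrr, hr'⟩)
          obtain ⟨g1, g2⟩ := h7 _ hs
          refine ⟨g1, fun r' hr' => ?_⟩
          rw [runL_cons, g2 r' (fun x hx v' => by
            rw [hnx x (h6 x hx).2]; exact hr' x (List.mem_cons_of_mem _ hx) v')]
          have hrr : r' ≠ r := by
            rintro rfl
            exact hr' q List.mem_cons_self v hq
          rw [hst']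
          simp only [Function.update_of_ne hrr]
      · rw [not_or] at hk
        refine ⟨K1, Rs1, l1, h1, fun x hx => (h2 x hx).imp_right (List.mem_cons_of_mem _), h3, ?_,
          h5, fun x hx => ⟨(h6 x hx).1, List.mem_cons_of_mem _ (h6 x hx).2⟩, ?_⟩
        · intro x hx r' v' hxr
          rcases List.mem_cons.1 hx with rfl | hx
          · rw [hq] at hxr
            cases hxr
            exact hk.2
          · exact h4 x hx r' v' (by rw [hnx x hx]; exact hxr)
        · intro C' hC'
          have hs : Sim C' (st P C q) K1 Rs1 := by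
            rw [hst]
            constructor
            · intro x hx
              have hxq : x ≠ q := fun h => hk.1 (h ▸ hx)
              simp only [Function.update_of_ne hxq]
              exact hC'.1 x hx
            · intro r' hr'
              have hrr : r' ≠ r := fun h => hk.2 (h ▸ hr')
              simp only [Function.update_of_ne hrr]
              exact hC'.2 r' hr'
          obtain ⟨g1, g2⟩ := h7 _ hs
          exact ⟨g1, fun r' hr' => g2 r' (fun x hx v' => by
            rw [hnx x (h6 x hx).2]; exact hr' x hx v')⟩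

lemma back_read (K : Finset (Fin n)) (Rs : Finset R) :
    ∀ (l : List (Fin n)) (C C' : Config n R V), l.Nodup → (∀ q ∈ l, ∃ r, nx P C q = Act.read r) →
    (∀ q ∈ l, q ∈ K → ∀ r, nx P C q = Act.read r → r ∈ Rs) → Sim C' C K Rs →
    Sim (runL P C' (l.filter (· ∈ K))) (runL P C l) K Rs ∧
      (runL P C' (l.filter (· ∈ K))).mem = C'.mem
  | [], _, _, _, _, _, h => ⟨h, rfl⟩
  | q :: t, C, C', hnd, hr, hR, hC' => by
    rw [List.nodup_cons] at hnd
    have hne : ∀ x ∈ t, x ≠ q := fun x hx h => hnd.1 (h ▸ hx)
    have hnx : ∀ x ∈ t, nx P (st P C q) x = nx P C x := fun x hx =>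
      nx_congr (st_hist_ne C (hne x hx))
    obtain ⟨r, hq⟩ := hr q List.mem_cons_self
    have hst : st P C q = ⟨C.mem, Function.update C.hist q (some (C.mem r) :: C.hist q)⟩ := by
      simp [st, hq, Config.perform]
    have ih := fun C'' => back_read K Rs t (st P C q) C'' hnd.2
      (fun x hx => by rw [hnx x hx]; exact hr x (List.mem_cons_of_mem _ hx))
      (fun x hx hxK r' => by rw [hnx x hx]; exact hR x (List.mem_cons_of_mem _ hx) hxK r')
    by_cases hk : q ∈ K
    · have hf : (q :: t).filter (· ∈ K) = q :: t.filter (· ∈ K) := by simp [hk]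
      have hq1 : C'.hist q = C.hist q := hC'.1 q hk
      have hq' : nx P C' q = Act.read r := by rw [nx_congr hq1, hq]
      have hst' : st P C' q =
          ⟨C'.mem, Function.update C'.hist q (some (C'.mem r) :: C'.hist q)⟩ := by
        simp [st, hq', Config.perform]
      have hs : Sim (st P C' q) (st P C q) K Rs := by
        rw [hst, hst']
        refine ⟨fun x hx => ?_, hC'.2⟩
        by_cases hxq : x = q
        · subst hxq
          simp [hq1, hC'.2 r (hR x List.mem_cons_self hk r hq)]
        · simp only [Function.update_of_ne hxq]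
          exact hC'.1 x hx
      rw [hf, runL_cons, runL_cons]
      obtain ⟨g1, g2⟩ := ih _ hs
      exact ⟨g1, by rw [g2, hst']⟩
    · have hf : (q :: t).filter (· ∈ K) = t.filter (· ∈ K) := by simp [hk]
      have hs : Sim C' (st P C q) K Rs := by
        rw [hst]
        refine ⟨fun x hx => ?_, hC'.2⟩
        have hxq : x ≠ q := fun h => hk (h ▸ hx)
        simp only [Function.update_of_ne hxq]
        exact hC'.1 x hx
      rw [hf, runL_cons]
      exact ih _ hs

def rdSet : Act R V I → Finset R
  | .read r => {r}
  | _ => ∅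

def wrSet : Act R V I → Finset R
  | .write r _ => {r}
  | _ => ∅

lemma card_rdSet (a : Act R V I) : (rdSet a).card ≤ 1 := by cases a <;> simp [rdSet]

lemma card_wrSet (a : Act R V I) : (wrSet a).card ≤ 1 := by cases a <;> simp [wrSet]

lemma mem_rdSet {a : Act R V I} {r : R} : r ∈ rdSet a ↔ a = Act.read r := by
  cases a <;> simp [rdSet, eq_comm]

lemma mem_wrSet {a : Act R V I} {r : R} : r ∈ wrSet a ↔ ∃ v, a = Act.write r v := by
  cases a <;> simp [wrSet, eq_comm]

lemma card_biUnion_ite (K : Finset (Fin n)) (l : List (Fin n)) (f : Fin n → Finset R)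
    (hf : ∀ q, (f q).card ≤ 1) :
    (K.biUnion fun q => if q ∈ l then f q else ∅).card ≤ K.card := by
  refine Finset.card_biUnion_le.trans ?_
  rw [Finset.card_eq_sum_ones K]
  refine Finset.sum_le_sum fun q _ => ?_
  split_ifs
  · exact hf q
  · simp

/-- One round: released writers, then processors that all read or all do not read. -/
lemma back_round (rel sv : List (Fin n)) (C : Config n R V) (K : Finset (Fin n)) (Rs : Finset R)
    (hnd : (rel ++ sv).Nodup) (hrel : ∀ q ∈ rel, ∀ r, nx P C q ≠ Act.read r)
    (hsv : (∀ q ∈ sv, ∃ r, nx P C q = Act.read r) ∨ ∀ q ∈ sv, ∀ r, nx P C q ≠ Act.read r) :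
    ∃ (K' : Finset (Fin n)) (Rs' Wr : Finset R) (l' : List (Fin n)),
      K ⊆ K' ∧ (∀ q ∈ K', q ∈ K ∨ q ∈ rel ++ sv) ∧
      K'.card + Rs'.card ≤ 2 * (K.card + Rs.card) ∧ Wr.card ≤ K'.card ∧
      (∀ r ∈ Wr, ∃ q ∈ rel ++ sv, ∃ v, nx P C q = Act.write r v) ∧
      (∀ r ∈ Rs', r ∈ Rs ∨ ((∃ q ∈ sv, nx P C q = Act.read r) ∧
        ∀ q ∈ rel, ∀ v, nx P C q ≠ Act.write r v)) ∧
      (∀ q ∈ l', q ∈ rel ++ sv) ∧
      ∀ C', Sim C' C K' Rs' → Sim (runL P C' l') (runL P C (rel ++ sv)) K Rs ∧
        ∀ r ∉ Wr, (runL P C' l').mem r = C'.mem r := by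
  have hWr : ∀ K' : Finset (Fin n),
      ∀ r ∈ K'.biUnion fun q => if q ∈ rel ++ sv then wrSet (nx P C q) else ∅,
        ∃ q ∈ rel ++ sv, ∃ v, nx P C q = Act.write r v := by
    intro K' r hr
    obtain ⟨q, -, hq⟩ := Finset.mem_biUnion.1 hr
    split_ifs at hq with h
    · exact ⟨q, h, mem_wrSet.1 hq⟩
    · simp at hq
  have hWr2 : ∀ (K' : Finset (Fin n)) (r : R),
      r ∉ (K'.biUnion fun q => if q ∈ rel ++ sv then wrSet (nx P C q) else ∅) →
        ∀ q ∈ K', q ∈ rel ++ sv → ∀ v, nx P C q ≠ Act.write r v := by
    intro K' r hr q hq hq2 v hv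
    exact hr (Finset.mem_biUnion.2 ⟨q, hq, by rw [if_pos hq2]; exact mem_wrSet.2 ⟨v, hv⟩⟩)
  rcases hsv with hsv | hsv
  · have hdis : ∀ q ∈ sv, q ∉ rel := fun q hq hq' =>
      (List.nodup_append.1 hnd).2.2 q hq' q hq rfl
    have hnx : ∀ q ∈ sv, nx P (runL P C rel) q = nx P C q := fun q hq =>
      nx_runL_notMem rel C (hdis q hq)
    set Rs1 : Finset R := Rs ∪ K.biUnion fun q => if q ∈ sv then rdSet (nx P C q) else ∅ with hRs1
    have hc1 : Rs1.card ≤ Rs.card + K.card :=
      (Finset.card_union_le _ _).trans
        (Nat.add_le_add_left (card_biUnion_ite K sv _ fun q => card_rdSet _) _)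
    obtain ⟨K', Rs', l1, h1, h2, h3, h4, h5, h6, h7⟩ :=
      back_write (P := P) rel C K Rs1 (List.nodup_append.1 hnd).1 hrel
    refine ⟨K', Rs', K'.biUnion fun q => if q ∈ rel ++ sv then wrSet (nx P C q) else ∅,
      l1 ++ sv.filter (· ∈ K), h1, fun q hq => (h2 q hq).imp_right (List.mem_append_left _),
      by omega, card_biUnion_ite K' _ _ fun q => card_wrSet _, hWr K', ?_, ?_, ?_⟩
    · intro r hr
      rcases Finset.mem_union.1 (h3 hr) with h | h
      · exact Or.inl h
      · obtain ⟨q, -, hq⟩ := Finset.mem_biUnion.1 h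
        split_ifs at hq with h'
        · exact Or.inr ⟨⟨q, h', mem_rdSet.1 hq⟩, fun x hx v hv => h4 x hx r v hv hr⟩
        · simp at hq
    · intro q hq
      rcases List.mem_append.1 hq with h | h
      · exact List.mem_append_left _ (h6 q h).2
      · exact List.mem_append_right _ (List.mem_of_mem_filter h)
    · intro C' hC'
      obtain ⟨g1, g2⟩ := h7 C' hC'
      obtain ⟨g3, g4⟩ := back_read (P := P) K Rs1 sv (runL P C rel) (runL P C' l1)
        (List.nodup_append.1 hnd).2.1 (fun q hq => by rw [hnx q hq]; exact hsv q hq)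
        (fun q hq hqK r hr => by
          rw [hnx q hq] at hr
          exact Finset.mem_union_right _
            (Finset.mem_biUnion.2 ⟨q, hqK, by rw [if_pos hq]; exact mem_rdSet.2 hr⟩)) g1
      rw [runL_append, runL_append]
      refine ⟨⟨g3.1, fun r hr => g3.2 r (Finset.mem_union_left _ hr)⟩, fun r hr => ?_⟩
      rw [g4]
      exact g2 r fun q hq v => hWr2 K' r hr q (h6 q hq).1 (List.mem_append_left _ (h6 q hq).2) v
  · obtain ⟨K', Rs', l1, h1, h2, h3, h4, h5, h6, h7⟩ :=
      back_write (P := P) (rel ++ sv) C K Rs hnd (fun q hq => by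
        rcases List.mem_append.1 hq with h | h
        · exact hrel q h
        · exact hsv q h)
    refine ⟨K', Rs', K'.biUnion fun q => if q ∈ rel ++ sv then wrSet (nx P C q) else ∅,
      l1, h1, h2, by omega, card_biUnion_ite K' _ _ fun q => card_wrSet _, hWr K',
      fun r hr => Or.inl (h3 hr), fun q hq => (h6 q hq).2, ?_⟩
    intro C' hC'
    obtain ⟨g1, g2⟩ := h7 C' hC'
    exact ⟨g1, fun r hr => g2 r fun q hq v => hWr2 K' r hr q (h6 q hq).1 (h6 q hq).2 v⟩

end Pool.Agent.H600Z.IdC
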