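import Pool.Agent.H600Z.IdC.Node

/-! A good target either yields a certificate or takes many steps; simulation of the round based
scheduler by a step by step scheduler; measurability. -/

open scoped Classical ENNReal
open MeasureTheory

noncomputable section

namespace Pool.Agent.H600Z.IdC

variable {n : ℕ} {R V I Ω : Type}

def nd (P : Prog n R V I) (B : Finset R) (T : ℕ) (p : Fin n) (C0 : Config n R V)
    (L : List (Fin n)) (r : ℕ) : Node n R V := (nextP P B T p)^[r] (C0, (L, []))

variable {P : Prog n R V I} {B : Finset R} {T : ℕ} {p : Fin n} {C0 : Config n R V}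
  {L : List (Fin n)}

lemma nd_succ (r : ℕ) : nd P B T p C0 L (r + 1) =
    nextK P B T (lab B (view P (nd P B T p C0 L r).1 p)) (nd P B T p C0 L r) := by
  rw [nd, Function.iterate_succ_apply']
  rfl

lemma nd_mem_of_succ {r : ℕ} (h : p ∈ (nd P B T p C0 L (r + 1)).2.1) :
    p ∈ (nd P B T p C0 L r).2.1 := by
  rw [nd_succ] at h
  exact List.mem_of_mem_filter (List.mem_of_mem_drop h)

lemma nd_mem {k : ℕ} (h : p ∈ (nd P B T p C0 L k).2.1) : ∀ r ≤ k, p ∈ (nd P B T p C0 L r).2.1 := by
  intro r hr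
  induction hr with
  | refl => exact h
  | step _ ih => exact ih (nd_mem_of_succ h)

lemma nd_inv {G : Finset (Fin n)} (hL : L.Nodup) (hG : ∀ y ∈ L, y ∈ G)
    (h : p ∈ (nd P B T p C0 L T).2.1) : ∀ r ≤ T,
    NInv P B T G (fun f => lab B (view P (nd P B T p C0 L f).1 p)) r (nd P B T p C0 L r) := by
  intro r
  induction r with
  | zero =>
    intro _
    exact ⟨by simpa [nd] using hL, by simpa [nd] using hG, by simp [nd], by simp⟩
  | succ r ih =>
    intro hr
    have h1 := nd_mem h (r + 1) hr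
    rw [nd_succ] at h1 ⊢
    exact (ih (by omega)).step (List.ne_nil_of_mem h1)

lemma nd_batch_mem {r : ℕ} (h : p ∈ (nd P B T p C0 L (r + 1)).2.1) :
    p ∈ (rnd B T (lab B (view P (nd P B T p C0 L r).1 p)) (view P (nd P B T p C0 L r).1)
      (nd P B T p C0 L r).2).2 := by
  rw [nd_succ] at h
  exact List.mem_append_right _ h

lemma nd_len (h : p ∈ (nd P B T p C0 L T).2.1)
    (h2 : ∀ a, nx P (nd P B T p C0 L T).1 p ≠ Act.out a) :
    T ≤ ((nd P B T p C0 L T).1.hist p).length := by
  have hno : ∀ r ≤ T, ∀ a, nx P (nd P B T p C0 L r).1 p ≠ Act.out a := by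
    intro r hr a ha
    have : ∀ k, r ≤ k → nx P (nd P B T p C0 L k).1 p = Act.out a := by
      intro k hk
      induction hk with
      | refl => exact ha
      | step _ ih => rw [nd_succ]; exact runL_out _ _ ih
    exact h2 a (this T hr)
  have : ∀ r ≤ T, r ≤ ((nd P B T p C0 L r).1.hist p).length := by
    intro r
    induction r with
    | zero => simp
    | succ r ih =>
      intro hr
      have h3 := runL_len_lt (P := P) _ _ (nd_batch_mem (nd_mem h (r + 1) hr)) (hno r (by omega))
      have h4 := ih (by omega)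
      rw [nd_succ]
      simp only [nextK]
      omega
  exact this T le_rfl

lemma exists_cert {G : Finset (Fin n)} (hL : L.Nodup) (hG : ∀ y ∈ L, y ∈ G)
    (h : p ∈ (nd P B T p C0 L T).2.1) {a : I} (ha : nx P (nd P B T p C0 L T).1 p = Act.out a) :
    ∃ X : Cert n R V I, Good X P C0 G T ∧ X.B = B := by
  set pat : ℕ → Lab R := fun f => lab B (view P (nd P B T p C0 L f).1 p) with hpat
  have hpG : p ∈ G := hG p (nd_mem h 0 (Nat.zero_le _))
  have key : ∀ (g : ℕ) (K : Finset (Fin n)) (Rs : Finset R),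
      ∃ (K' : Finset (Fin n)) (Rs' Wr : Finset R) (l' : List (Fin n)),
      g < T → (∀ q ∈ K, q ∈ G) → K ⊆ K' ∧ (∀ q ∈ K', q ∈ G) ∧
      K'.card + Rs'.card ≤ 2 * (K.card + Rs.card) ∧ Wr.card ≤ K'.card ∧
      (∀ s ∈ Wr, s ∈ B → ∃ f ≤ g, pat f = some (some s, true)) ∧
      (∀ s ∈ Rs', s ∈ Rs ∨ (s ∈ B → pat g = some (some s, false) ∧
        ∀ f < g, pat f ≠ some (some s, true))) ∧
      (∀ q ∈ l', q ∈ G) ∧
      ∀ C', Sim C' (nd P B T p C0 L g).1 K' Rs' →
        Sim (runL P C' l') (nd P B T p C0 L (g + 1)).1 K Rs ∧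
        ∀ s ∉ Wr, (runL P C' l').mem s = C'.mem s := by
    intro g K Rs
    by_cases hg : g < T ∧ ∀ q ∈ K, q ∈ G
    · obtain ⟨K', Rs', Wr, l', h'⟩ := (nd_inv hL hG h g hg.1.le).back hg.1 K Rs hg.2
      exact ⟨K', Rs', Wr, l', fun _ _ => by rw [nd_succ]; exact h'⟩
    · exact ⟨∅, ∅, ∅, [], fun h1 h2 => absurd ⟨h1, h2⟩ hg⟩
  choose fK fR fW fl hf using key
  let D : ℕ → Finset (Fin n) × Finset R := fun d =>
    Nat.rec ({p}, ∅) (fun d z => (fK (T - d - 1) z.1 z.2, fR (T - d - 1) z.1 z.2)) d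
  let K : ℕ → Finset (Fin n) := fun g => (D (T - g)).1
  let Rs : ℕ → Finset R := fun g => (D (T - g)).2
  have hKT : K T = {p} := by simp [K, D]
  have hRT : Rs T = ∅ := by simp [Rs, D]
  have hKs : ∀ g < T, K g = fK g (K (g + 1)) (Rs (g + 1)) ∧ Rs g = fR g (K (g + 1)) (Rs (g + 1)) := by
    intro g hg
    have e1 : T - g = (T - (g + 1)) + 1 := by omega
    have e2 : T - (T - (g + 1)) - 1 = g := by omega
    simp only [K, Rs]
    rw [e1]
    simp only [D, e2, and_self]
  have hall : ∀ d ≤ T, (∀ q ∈ K (T - d), q ∈ G) ∧ (K (T - d)).card + (Rs (T - d)).card ≤ 2 ^ d ∧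
      ∀ s ∈ Rs (T - d), s ∈ B → ∃ b, T - d ≤ b ∧ b < T ∧ pat b = some (some s, false) ∧
        ∀ f < b, pat f ≠ some (some s, true) := by
    intro d
    induction d with
    | zero =>
      intro _
      rw [Nat.sub_zero, hKT, hRT]
      simp [hpG]
    | succ d ih =>
      intro hd
      obtain ⟨i1, i2, i3⟩ := ih (by omega)
      have hg : T - (d + 1) < T := by omega
      have e : T - (d + 1) + 1 = T - d := by omega
      obtain ⟨e1, e2⟩ := hKs _ hg
      rw [e] at e1 e2
      obtain ⟨-, j2, j3, -, -, j6, -⟩ := hf (T - (d + 1)) (K (T - d)) (Rs (T - d)) hg i1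
      rw [← e1] at j2 j3
      rw [← e2] at j3 j6
      refine ⟨j2, by rw [pow_succ]; omega, fun s hs hsB => ?_⟩
      rcases j6 s hs with h' | h'
      · obtain ⟨b, b1, b2⟩ := i3 s h' hsB
        exact ⟨b, by omega, b2⟩
      · exact ⟨_, le_rfl, hg, h' hsB⟩
  have hall' : ∀ g ≤ T, (∀ q ∈ K g, q ∈ G) ∧ (K g).card + (Rs g).card ≤ 2 ^ T ∧
      ∀ s ∈ Rs g, s ∈ B → ∃ b, g ≤ b ∧ b < T ∧ pat b = some (some s, false) ∧
        ∀ f < b, pat f ≠ some (some s, true) := by
    intro g hg
    have := hall (T - g) (by omega)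
    rw [show T - (T - g) = g by omega] at this
    exact ⟨this.1, this.2.1.trans (Nat.pow_le_pow_right (by omega) (by omega)), this.2.2⟩
  refine ⟨⟨p, a, B, fun g C' => Sim C' (nd P B T p C0 L g).1 (K g) (Rs g), Rs,
    fun g => fW g (K (g + 1)) (Rs (g + 1)), fun g => fl g (K (g + 1)) (Rs (g + 1)), pat⟩,
    ⟨hpG, ⟨fun _ _ => rfl, fun _ _ => rfl⟩, ?_, ?_, ?_, ?_, hRT, ?_, ?_, ?_, ?_, ?_⟩, rfl⟩
  · intro g C' C'' h1 h2 h3
    refine ⟨fun q hq => ?_, fun s hs => (h3 s hs).trans (h1.2 s hs)⟩
    have hq' : q ∈ G := by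
      by_cases hg : g ≤ T
      · exact (hall' g hg).1 q hq
      · have : K g = {p} := by simp [K, D, show T - g = 0 by omega]
        rw [this, Finset.mem_singleton] at hq
        exact hq ▸ hpG
    exact (h2 q hq').trans (h1.1 q hq)
  · intro g hg C' hC'
    obtain ⟨e1, e2⟩ := hKs g hg
    simp only at hC' ⊢
    rw [e1, e2] at hC'
    exact (hf g _ _ hg (hall' (g + 1) hg).1).2.2.2.2.2.2.2 C' hC'
  · intro g hg
    exact (hf g _ _ hg (hall' (g + 1) hg).1).2.2.2.2.2.2.1
  · intro C' hC'
    simp only at hC' ⊢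
    rw [nx_congr (hC'.1 p (by rw [hKT]; simp)), ha]
  · intro g hg
    have := (hall' g hg.le).2.1
    simp only
    omega
  · intro g hg
    have h1 := (hf g _ (Rs (g + 1)) hg (hall' (g + 1) hg).1).2.2.2.1
    rw [← (hKs g hg).1] at h1
    have := (hall' g hg.le).2.1
    simp only
    omega
  · intro g hg
    exact (hf g _ _ hg (hall' (g + 1) hg).1).2.2.2.2.1
  · intro g hg
    exact (hall' g hg.le).2.2
  · intro f r w hfr
    exact mem_of_lab hfr

/-! ### From rounds to single steps -/

section sim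

variable {S : Type} (β : S → (Fin n → Shape R) → S × List (Fin n)) (q0 : S) (d : Fin n)

def upd (z : S × List (Fin n)) (v : Fin n → Shape R) : (S × List (Fin n)) × Fin n :=
  match z.2 with
  | x :: rest => ((z.1, rest), x)
  | [] =>
    match (β z.1 v).2 with
    | x :: rest => (((β z.1 v).1, rest), x)
    | [] => (((β z.1 v).1, []), d)

def stt : List (Fin n → Shape R) → (S × List (Fin n)) × Fin n
  | [] => ((q0, []), d)
  | v :: vs => upd β d (stt vs).1 v

def adv : List (Fin n → Shape R) → Fin n := fun vs => (stt β q0 d vs).2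

end sim

def Alg.prog (alg : Alg n R V I Ω) (u : Fin n → I) (ω : Fin n → Ω) : Prog n R V I :=
  fun q h => alg.act q (u q) (ω q) h

variable (alg : Alg n R V I Ω) (u : Fin n → I) (ω : Fin n → Ω)

lemma exec_eq (s : List (Fin n)) : alg.exec u ω s = runL (alg.prog u ω) alg.start s := rfl

lemma next_eq (C : Config n R V) (q : Fin n) : alg.next u ω C q = nx (alg.prog u ω) C q := rfl

lemma run_succ (A : List (Fin n → Shape R) → Fin n) (t : ℕ) :
    alg.run A u ω (t + 1) =
      (st (alg.prog u ω) (alg.run A u ω t).1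
        (A (view (alg.prog u ω) (alg.run A u ω t).1 :: (alg.run A u ω t).2)),
        view (alg.prog u ω) (alg.run A u ω t).1 :: (alg.run A u ω t).2) := rfl

section sim2

variable {S : Type} (β : S → (Fin n → Shape R) → S × List (Fin n)) (q0 : S) (d : Fin n)

lemma run_queue : ∀ (l : List (Fin n)) (t : ℕ) (q : S),
    (stt β q0 d (alg.run (adv β q0 d) u ω t).2).1 = (q, l) →
    ∃ t', (alg.run (adv β q0 d) u ω t').1 =
        runL (alg.prog u ω) (alg.run (adv β q0 d) u ω t).1 l ∧
      (stt β q0 d (alg.run (adv β q0 d) u ω t').2).1 = (q, [])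
  | [], t, _, h => ⟨t, rfl, h⟩
  | x :: rest, t, q, h => by
    have h1 : ∀ v, stt β q0 d (v :: (alg.run (adv β q0 d) u ω t).2) = ((q, rest), x) := by
      intro v
      simp only [stt, h, upd]
    obtain ⟨t', h2, h3⟩ := run_queue rest (t + 1) q (by rw [run_succ, h1])
    refine ⟨t', ?_, h3⟩
    rw [h2, run_succ, runL_cons]
    simp only [adv, h1]

lemma run_round (t : ℕ) (q : S) (h : (stt β q0 d (alg.run (adv β q0 d) u ω t).2).1 = (q, []))
    (hne : (β q (view (alg.prog u ω) (alg.run (adv β q0 d) u ω t).1)).2 ≠ []) :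
    ∃ t', (alg.run (adv β q0 d) u ω t').1 =
        runL (alg.prog u ω) (alg.run (adv β q0 d) u ω t).1
          (β q (view (alg.prog u ω) (alg.run (adv β q0 d) u ω t).1)).2 ∧
      (stt β q0 d (alg.run (adv β q0 d) u ω t').2).1 =
        ((β q (view (alg.prog u ω) (alg.run (adv β q0 d) u ω t).1)).1, []) := by
  obtain ⟨x, rest, hx⟩ := List.exists_cons_of_ne_nil hne
  have h1 : stt β q0 d (view (alg.prog u ω) (alg.run (adv β q0 d) u ω t).1 ::
      (alg.run (adv β q0 d) u ω t).2) =
      (((β q (view (alg.prog u ω) (alg.run (adv β q0 d) u ω t).1)).1, rest), x) := by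
    simp only [stt, h, upd, hx]
  obtain ⟨t', h2, h3⟩ := run_queue alg u ω β q0 d rest (t + 1) _ (by rw [run_succ, h1])
  refine ⟨t', ?_, h3⟩
  rw [h2, run_succ, hx, runL_cons]
  simp only [adv, h1]

end sim2

/-- The scheduler that targets `p`. -/
def advP (B : Finset R) (T : ℕ) (L : List (Fin n)) (p : Fin n) :
    List (Fin n → Shape R) → Fin n :=
  adv (fun q v => rnd B T (lab B (v p)) v q) (L, []) p

lemma run_nd (h : p ∈ (nd (alg.prog u ω) B T p alg.start L T).2.1) : ∀ r ≤ T, ∃ t,
    (alg.run (advP B T L p) u ω t).1 = (nd (alg.prog u ω) B T p alg.start L r).1 ∧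
    (stt (fun q v => rnd B T (lab B (v p)) v q) (L, []) p (alg.run (advP B T L p) u ω t).2).1 =
      ((nd (alg.prog u ω) B T p alg.start L r).2, []) := by
  intro r
  induction r with
  | zero => exact fun _ => ⟨0, rfl, rfl⟩
  | succ r ih =>
    intro hr
    obtain ⟨t, h1, h2⟩ := ih (by omega)
    have h3 := nd_batch_mem (nd_mem h (r + 1) hr)
    obtain ⟨t', h4, h5⟩ := run_round alg u ω (fun q v => rnd B T (lab B (v p)) v q) (L, []) p t _
      h2 (by
        change (rnd B T (lab B (view _ (alg.run (advP B T L p) u ω t).1 p))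
          (view _ (alg.run (advP B T L p) u ω t).1) _).2 ≠ []
        rw [h1]
        exact List.ne_nil_of_mem h3)
    refine ⟨t', ?_, ?_⟩
    · change (alg.run (advP B T L p) u ω t').1 = runL _ (alg.run (advP B T L p) u ω t).1
        (rnd B T (lab B (view _ (alg.run (advP B T L p) u ω t).1 p))
          (view _ (alg.run (advP B T L p) u ω t).1) _).2 at h4
      rw [h4, h1, nd_succ]
      rfl
    · change (stt _ _ _ (alg.run (advP B T L p) u ω t').2).1 =
        ((rnd B T (lab B (view _ (alg.run (advP B T L p) u ω t).1 p))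
          (view _ (alg.run (advP B T L p) u ω t).1) _).1, []) at h5
      rw [h5, h1, nd_succ]
      rfl

lemma steps_ge (h : p ∈ (nd (alg.prog u ω) B T p alg.start L T).2.1)
    (h2 : ∀ a, nx (alg.prog u ω) (nd (alg.prog u ω) B T p alg.start L T).1 p ≠ Act.out a) :
    (T : ℝ≥0∞) ≤ alg.steps (advP B T L p) u ω p := by
  obtain ⟨t, h1, -⟩ := run_nd alg u ω h T le_rfl
  refine le_iSup_of_le t ?_
  rw [h1]
  exact_mod_cast nd_len h h2

/-! ### Measurability -/

def recon (A : List (Fin n → Shape R) → Fin n) (C0 : Config n R V) :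
    List (Fin n → Act R V I) → Config n R V × List (Fin n → Shape R)
  | [] => (C0, [])
  | w :: ws =>
    ((recon A C0 ws).1.perform (A ((fun q => (w q).shape) :: (recon A C0 ws).2))
      (w (A ((fun q => (w q).shape) :: (recon A C0 ws).2))),
      (fun q => (w q).shape) :: (recon A C0 ws).2)

def trc (A : List (Fin n → Shape R) → Fin n) : ℕ → List (Fin n → Act R V I)
  | 0 => []
  | t + 1 => (fun q => alg.next u ω (recon A alg.start (trc A t)).1 q) :: trc A t

lemma run_eq_recon (A : List (Fin n → Shape R) → Fin n) :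
    ∀ t, alg.run A u ω t = recon A alg.start (trc alg u ω A t)
  | 0 => rfl
  | t + 1 => by
    rw [Alg.run, run_eq_recon A t]
    rfl

instance [Countable R] [Countable V] [Countable I] : Countable (Act R V I) := by
  let f : Act R V I → R ⊕ (R × V) ⊕ I := fun a =>
    match a with
    | .read r => Sum.inl r
    | .write r v => Sum.inr (Sum.inl (r, v))
    | .out a => Sum.inr (Sum.inr a)
  have : Function.Injective f := by
    intro a b h
    cases a <;> cases b <;> simp_all [f]
  exact this.countable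

lemma meas_trc [MeasurableSpace Ω] (hm : alg.MeasurableAct) (A : List (Fin n → Shape R) → Fin n) :
    ∀ (t : ℕ) (ws : List (Fin n → Act R V I)), MeasurableSet {ω | trc alg u ω A t = ws}
  | 0, ws => by
    simp only [trc]
    exact MeasurableSet.const _
  | t + 1, [] => by simp [trc]
  | t + 1, w :: ws => by
    have : {ω | trc alg u ω A (t + 1) = w :: ws} = {ω | trc alg u ω A t = ws} ∩
        ⋂ q, (fun ω : Fin n → Ω => ω q) ⁻¹'
          {c | alg.act q (u q) c ((recon A alg.start ws).1.hist q) = w q} := by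
      ext ω
      simp only [trc, Set.mem_ofPred_eq, List.cons.injEq, Set.mem_inter_iff, Set.mem_iInter,
        Set.mem_preimage]
      constructor
      · rintro ⟨h1, rfl⟩
        exact ⟨rfl, fun q => congrFun h1 q⟩
      · rintro ⟨rfl, h1⟩
        exact ⟨funext h1, rfl⟩
    rw [this]
    exact (meas_trc hm A t ws).inter
      (MeasurableSet.iInter fun q => measurable_pi_apply q (hm _ _ _ _))

lemma meas_steps [MeasurableSpace Ω] [Countable R] [Countable V] [Countable I]
    (hm : alg.MeasurableAct) (A : List (Fin n → Shape R) → Fin n) (p : Fin n) :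
    Measurable fun ω => alg.steps A u ω p := by
  refine Measurable.iSup fun t => ?_
  intro s _
  have : (fun ω => (((alg.run A u ω t).1.hist p).length : ℝ≥0∞)) ⁻¹' s =
      ⋃ ws : {ws : List (Fin n → Act R V I) //
        ((((recon A alg.start ws).1.hist p).length : ℕ) : ℝ≥0∞) ∈ s},
        {ω | trc alg u ω A t = ws.1} := by
    ext ω
    simp only [Set.mem_preimage, Set.mem_iUnion, Set.mem_ofPred_eq, run_eq_recon]
    constructor
    · intro h
      exact ⟨⟨_, h⟩, rfl⟩
    · rintro ⟨ws, h⟩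
      rw [h]
      exact ws.2
  rw [this]
  exact MeasurableSet.iUnion fun ws => meas_trc alg u hm A t ws.1

end Pool.Agent.H600Z.IdC
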