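import Mathlib

/-!
Randomized shared-memory algorithms over atomic multi-writer multi-reader registers, id consensus,
and schedulers that see the kind and the register of pending operations but never a value.

`n` processors `Fin n`; `R` is the type of registers, `V` the type of register contents, `I` the
type of identifiers, `Ω` the type of private random tapes.
-/

open scoped ENNReal Classical

noncomputable section

namespace Pool.Agent.H600Z.IdC

/-- What a processor does next: read a register, write a value to a register, or stop with an
output. -/
inductive Act (R V I : Type) where
  | read (r : R)
  | write (r : R) (v : V)
  | out (a : I)

/-- What the scheduler sees of a pending action: its kind and its register, or that the processor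
has stopped. It sees neither the value to be written nor the output. -/
inductive Shape (R : Type) where
  | read (r : R)
  | write (r : R)
  | done

variable {n : ℕ} {R V I Ω : Type}

/-- The visible part of an action. -/
def Act.shape : Act R V I → Shape R
  | .read r => .read r
  | .write r _ => .write r
  | .out _ => .done

/-- A configuration: the contents of the registers and, for each processor, the responses to the
steps it has taken so far, newest first (`some v` for a read that returned `v`, `none` for a
write). The length of `hist q` is the number of steps taken by `q`. -/
structure Config (n : ℕ) (R V : Type) where
  mem : R → V
  hist : Fin n → List (Option V)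

/-- Processor `q` performs an action atomically. A processor that has stopped does nothing. -/
def Config.perform (C : Config n R V) (q : Fin n) : Act R V I → Config n R V
  | .read r => ⟨C.mem, Function.update C.hist q (some (C.mem r) :: C.hist q)⟩
  | .write r v => ⟨Function.update C.mem r v, Function.update C.hist q (none :: C.hist q)⟩
  | .out _ => C

/-- A randomized algorithm: initial register contents, and the next action of processor `q` as a
function of its own identifier, its private random tape and the responses it has received. -/
structure Alg (n : ℕ) (R V I Ω : Type) where
  init : R → V
  act : Fin n → I → Ω → List (Option V) → Act R V I

namespace Alg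

variable (alg : Alg n R V I Ω)

/-- The initial configuration. -/
def start : Config n R V := ⟨alg.init, fun _ => []⟩

/-- The pending action of `q` in configuration `C`, for identifiers `u` and random tapes `ω`. -/
def next (u : Fin n → I) (ω : Fin n → Ω) (C : Config n R V) (q : Fin n) : Act R V I :=
  alg.act q (u q) (ω q) (C.hist q)

/-- The configuration reached when the processors in the list `s` take steps in this order. -/
def exec (u : Fin n → I) (ω : Fin n → Ω) (s : List (Fin n)) : Config n R V :=
  s.foldl (fun C q => C.perform q (alg.next u ω C q)) alg.start

/-- The safety requirements of id consensus: for all distinct identifiers, all random tapes and all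
finite schedules, any two outputs are equal and every output is the identifier of a processor. -/
def SolvesIdConsensus : Prop :=
  ∀ u : Fin n → I, Function.Injective u → ∀ (ω : Fin n → Ω) (s : List (Fin n)),
    (∀ i j a b, alg.next u ω (alg.exec u ω s) i = Act.out a →
      alg.next u ω (alg.exec u ω s) j = Act.out b → a = b) ∧
    (∀ i a, alg.next u ω (alg.exec u ω s) i = Act.out a → ∃ j, a = u j)

/-- The choice of the next action depends measurably on the random tape. -/
def MeasurableAct [MeasurableSpace Ω] : Prop :=
  ∀ q x h a, MeasurableSet {c : Ω | alg.act q x c h = a}

/-- The run against a scheduler `A`, which picks the next processor from the list (newest first)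
of the vectors of visible parts of pending actions seen so far. The value at time `t` is the
configuration after `t` choices of the scheduler together with what it has seen. A processor
crashes when it is never chosen again. -/
def run (A : List (Fin n → Shape R) → Fin n) (u : Fin n → I) (ω : Fin n → Ω) :
    ℕ → Config n R V × List (Fin n → Shape R)
  | 0 => (alg.start, [])
  | t + 1 =>
    let C := (run A u ω t).1
    let seen := (fun q => (alg.next u ω C q).shape) :: (run A u ω t).2
    (C.perform (A seen) (alg.next u ω C (A seen)), seen)

/-- The total number of steps (reads and writes) taken by processor `p` in the run against `A`. -/
def steps (A : List (Fin n → Shape R) → Fin n) (u : Fin n → I) (ω : Fin n → Ω) (p : Fin n) :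
    ℝ≥0∞ :=
  ⨆ t : ℕ, (((alg.run A u ω t).1.hist p).length : ℝ≥0∞)

end Alg

end Pool.Agent.H600Z.IdC
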