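import Pool.Agent.H600Z.IdC.CertEx

/-! The lower bound. -/

open scoped Classical ENNReal
open MeasureTheory

noncomputable section

namespace Pool.Agent.H600Z.IdC

variable {n : ℕ} {R V I Ω : Type}

lemma group_cert [MeasurableSpace Ω] [Countable R] [Countable V] [Countable I]
    (alg : Alg n R V I Ω) (hm : alg.MeasurableAct) (u : Fin n → I) (μ : Measure (Fin n → Ω))
    [IsProbabilityMeasure μ] (k c : ℕ) (hc : 2 ≤ c)
    (hE : ∀ A p, ∫⁻ ω, alg.steps A u ω p ∂μ < (k : ℝ≥0∞) / 2)
    (G : Finset (Fin n)) (hG : G.Nonempty) (hN : 4 * k * c ^ k ≤ G.card) (B : Finset R)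
    (hB : (labs B).card ≤ c) :
    ∃ (ω : Fin n → Ω) (X : Cert n R V I), Good X (alg.prog u ω) alg.start G k ∧ X.B = B := by
  by_contra hno
  have h1 : ∀ ω, (G.card : ℝ≥0∞) * ((k : ℝ≥0∞) / 2) ≤
      ∑ p ∈ G, alg.steps (advP B k G.toList p) u ω p := by
    intro ω
    have hb := bad_count (P := alg.prog u ω) (T := k) c hc hB k (alg.start, (G.toList, []))
    simp only [Finset.toList_toFinset] at hb
    set good := G.filter fun p => p ∈ (nd (alg.prog u ω) B k p alg.start G.toList k).2.1 with hgood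
    have hsum := Finset.card_filter_add_card_filter_not (s := G)
      (fun p => p ∈ (nd (alg.prog u ω) B k p alg.start G.toList k).2.1)
    have h2 : G.card ≤ 2 * good.card := by
      have e : 4 * k * c ^ k = 2 * (2 * k * c ^ k) := by ring
      unfold nd at hsum hgood
      rw [← hgood] at hsum
      omega
    calc (G.card : ℝ≥0∞) * ((k : ℝ≥0∞) / 2) ≤ ((2 * good.card : ℕ) : ℝ≥0∞) * ((k : ℝ≥0∞) / 2) := by
          gcongr
      _ = ∑ p ∈ good, (k : ℝ≥0∞) := by
          rw [Finset.sum_const, nsmul_eq_mul]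
          push_cast
          rw [mul_comm 2, mul_assoc, ENNReal.mul_div_cancel (by norm_num) (by norm_num)]
      _ ≤ ∑ p ∈ good, alg.steps (advP B k G.toList p) u ω p := by
          refine Finset.sum_le_sum fun p hp => ?_
          have hp2 := (Finset.mem_filter.1 hp).2
          refine steps_ge alg u ω hp2 fun a ha => hno ?_
          obtain ⟨X, hX⟩ := exists_cert (G := G) G.nodup_toList
            (fun y hy => Finset.mem_toList.1 hy) hp2 ha
          exact ⟨ω, X, hX⟩
      _ ≤ _ := Finset.sum_le_sum_of_subset (Finset.filter_subset _ _)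
  have h2 : (G.card : ℝ≥0∞) * ((k : ℝ≥0∞) / 2) ≤
      ∑ p ∈ G, ∫⁻ ω, alg.steps (advP B k G.toList p) u ω p ∂μ := by
    rw [← lintegral_finsetSum _ fun p _ => meas_steps alg u hm _ p]
    refine le_trans ?_ (lintegral_mono h1)
    simp
  have h3 := ENNReal.sum_lt_sum_of_nonempty hG fun p _ => hE (advP B k G.toList p) p
  rw [Finset.sum_const, nsmul_eq_mul] at h3
  exact absurd h2 (not_le.2 h3)

lemma size_bound (k : ℕ) (hk : 1 ≤ k) :
    ((k * (k * (2 * 2 ^ k) * 2) + 1) ^ k + 1) *
      (4 * k * (2 * (((k * (k * (2 * 2 ^ k) * 2) + 1) ^ k + 1) * (k * (2 * 2 ^ k))) + 3) ^ k) ≤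
      2 ^ (22 * k ^ 3) := by
  have h0 : k ≤ 2 ^ k := Nat.lt_two_pow_self.le
  have p2 : ∀ {a b : ℕ}, a ≤ b → 2 ^ a ≤ 2 ^ b := fun h => Nat.pow_le_pow_right (by omega) h
  have one : ∀ a : ℕ, 1 ≤ 2 ^ a := fun a => Nat.one_le_two_pow
  have hL : k * (2 * 2 ^ k) ≤ 2 ^ (2 * k + 1) := by
    calc k * (2 * 2 ^ k) ≤ 2 ^ k * (2 * 2 ^ k) := Nat.mul_le_mul_right _ h0
      _ = 2 ^ (2 * k + 1) := by ring
  have h1 : k * (k * (2 * 2 ^ k) * 2) + 1 ≤ 2 ^ (6 * k) := by
    calc k * (k * (2 * 2 ^ k) * 2) + 1 ≤ 2 ^ k * (2 ^ (2 * k + 1) * 2) + 2 ^ (3 * k + 2) :=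
          Nat.add_le_add (Nat.mul_le_mul h0 (Nat.mul_le_mul_right _ hL)) (one _)
      _ = 2 ^ (3 * k + 3) := by ring
      _ ≤ _ := p2 (by omega)
  have hkk : k ≤ k ^ 2 := by nlinarith
  have hk3 : k ^ 2 ≤ k ^ 3 := Nat.pow_le_pow_right hk (by omega)
  have hm : (k * (k * (2 * 2 ^ k) * 2) + 1) ^ k + 1 ≤ 2 ^ (7 * k ^ 2) := by
    calc _ ≤ (2 ^ (6 * k)) ^ k + 2 ^ (6 * k ^ 2) :=
          Nat.add_le_add (Nat.pow_le_pow_left h1 _) (one _)
      _ = 2 ^ (6 * k ^ 2 + 1) := by rw [← pow_mul]; ring
      _ ≤ _ := p2 (by omega)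
  have hc : 2 * (((k * (k * (2 * 2 ^ k) * 2) + 1) ^ k + 1) * (k * (2 * 2 ^ k))) + 3 ≤
      2 ^ (12 * k ^ 2) := by
    calc _ ≤ 2 * (2 ^ (7 * k ^ 2) * 2 ^ (2 * k + 1)) + 2 ^ (7 * k ^ 2 + 2 * k + 2) := by
          refine Nat.add_le_add (Nat.mul_le_mul_left _ (Nat.mul_le_mul hm hL)) ?_
          exact le_trans (by norm_num : 3 ≤ 2 ^ 2) (p2 (by omega))
      _ = 2 ^ (7 * k ^ 2 + 2 * k + 3) := by ring
      _ ≤ _ := p2 (by omega)
  calc _ ≤ 2 ^ (7 * k ^ 2) * (4 * 2 ^ k * (2 ^ (12 * k ^ 2)) ^ k) :=
        Nat.mul_le_mul hm (Nat.mul_le_mul (Nat.mul_le_mul_left _ h0) (Nat.pow_le_pow_left hc _))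
    _ = 2 ^ (7 * k ^ 2 + 2 + k + 12 * k ^ 3) := by rw [← pow_mul]; ring
    _ ≤ _ := p2 (by omega)

/-- The lower bound when outputs are identifiers of processors that took part, for one fixed
assignment of identifiers and any joint law of the random tapes. -/
theorem main_active [MeasurableSpace Ω] [Countable R] [Countable V] [Countable I]
    (k : ℕ) (hn : 2 ^ (22 * k ^ 3) ≤ n) (alg : Alg n R V I Ω) (hm : alg.MeasurableAct)
    (u : Fin n → I) (hu : Function.Injective u) (μ : Measure (Fin n → Ω))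
    [IsProbabilityMeasure μ]
    (hag : ∀ ω s i j a b, alg.next u ω (alg.exec u ω s) i = Act.out a →
      alg.next u ω (alg.exec u ω s) j = Act.out b → a = b)
    (hval : ∀ ω s i a, alg.next u ω (alg.exec u ω s) i = Act.out a →
      ∃ j, (j ∈ s ∨ j = i) ∧ a = u j) :
    ∃ A p, (k : ℝ≥0∞) / 2 ≤ ∫⁻ ω, alg.steps A u ω p ∂μ := by
  have hn0 : 0 < n := lt_of_lt_of_le (Nat.two_pow_pos _) hn
  by_contra hno
  push Not at hno
  have hk : 1 ≤ k := by
    by_contra h
    have h0 : k = 0 := by omega
    have := hno (fun _ => ⟨0, hn0⟩) ⟨0, hn0⟩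
    simp [h0] at this
  set Lr := k * (2 * 2 ^ k) with hLr
  set m := (k * (Lr * 2) + 1) ^ k + 1 with hmdef
  set c := 2 * (m * Lr) + 3 with hcdef
  set N := 4 * k * c ^ k with hN
  have hmN : m * N ≤ n := (size_bound k hk).trans hn
  have hNpos : 0 < N := by
    have : 0 < c ^ k := Nat.pow_pos (by omega)
    positivity
  obtain ⟨e⟩ : Nonempty (Fin m × Fin N ↪ Fin n) :=
    Function.Embedding.nonempty_of_card_le (by simpa using hmN)
  let G : ℕ → Finset (Fin n) := fun j =>
    if h : j < m then Finset.univ.image fun t : Fin N => e (⟨j, h⟩, t) else ∅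
  have hGc : ∀ j < m, (G j).card = N := by
    intro j hj
    simp only [G, dif_pos hj]
    rw [Finset.card_image_of_injective _ fun a b h => by simpa using h]
    simp
  have hGd : ∀ i j, i ≠ j → Disjoint (G i) (G j) := by
    intro i j hij
    rw [Finset.disjoint_left]
    intro q h1 h2
    simp only [G] at h1 h2
    split_ifs at h1 h2
    · simp only [Finset.mem_image, Finset.mem_univ, true_and] at h1 h2
      obtain ⟨a, rfl⟩ := h1
      obtain ⟨b, hb⟩ := h2
      have := e.injective hb
      simp only [Prod.mk.injEq, Fin.mk.injEq] at this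
      exact hij this.1.symm
    all_goals simp_all
  have hind : ∀ j ≤ m, ∃ (ω : Fin n → Ω) (X : ℕ → Cert n R V I),
      (∀ i < j, Good (X i) (alg.prog u ω) alg.start (G i) k) ∧
      ∀ i' i, i' < i → i < j → (X i').regs k ⊆ (X i).B := by
    intro j
    induction j with
    | zero =>
      intro _
      obtain ⟨ω⟩ := nonempty_of_isProbabilityMeasure μ
      exact ⟨ω, fun _ => ⟨⟨0, hn0⟩, u ⟨0, hn0⟩, ∅, fun _ _ => True, fun _ => ∅, fun _ => ∅,
        fun _ => [], fun _ => none⟩, by simp, by simp⟩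
    | succ j ih =>
      intro hj
      obtain ⟨ω, X, h1, h2⟩ := ih (by omega)
      have hBc : ((Finset.range j).biUnion fun i => (X i).regs k).card ≤ m * Lr := by
        refine Finset.card_biUnion_le.trans ((Finset.sum_le_card_nsmul _ _ Lr ?_).trans ?_)
        · exact fun i hi => (h1 i (Finset.mem_range.1 hi)).card_regs
        · rw [Finset.card_range, smul_eq_mul]
          exact Nat.mul_le_mul_right _ (by omega)
      obtain ⟨ω', Y, hY, hYB⟩ := group_cert alg hm u μ k c (by omega) hno (G j)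
        (by rw [← Finset.card_pos, hGc j hj]; exact hNpos) (by rw [hGc j hj])
        ((Finset.range j).biUnion fun i => (X i).regs k) ((card_labs _).trans (by omega))
      refine ⟨fun q => if q ∈ G j then ω' q else ω q, Function.update X j Y, ?_, ?_⟩
      · intro i hi
        rcases Nat.lt_succ_iff_lt_or_eq.1 hi with hi | rfl
        · rw [Function.update_of_ne hi.ne]
          refine (h1 i hi).congr fun q hq => ?_
          have : q ∉ G j := Finset.disjoint_left.1 (hGd i j hi.ne) hq
          funext h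
          simp [Alg.prog, this]
        · rw [Function.update_self]
          refine hY.congr fun q hq => ?_
          funext h
          simp [Alg.prog, hq]
      · intro i' i hi' hi
        rw [Function.update_of_ne (by omega : i' ≠ j)]
        rcases Nat.lt_succ_iff_lt_or_eq.1 hi with hi | rfl
        · rw [Function.update_of_ne hi.ne]
          exact h2 i' i hi' hi
        · rw [Function.update_self, hYB]
          exact Finset.subset_biUnion_of_mem (fun i => (X i).regs k) (Finset.mem_range.2 hi')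
  obtain ⟨ω, X, h1, h2⟩ := hind m le_rfl
  have hv : ∀ i < m, ∃ q ∈ G i, (X i).a = u q := by
    intro i hi
    obtain ⟨s, hs1, hs2⟩ := (h1 i hi).solo
    obtain ⟨q, hq, hq2⟩ := hval ω s _ _ hs2
    refine ⟨q, ?_, hq2⟩
    rcases hq with hq | rfl
    · exact hs1 q hq
    · exact (h1 i hi).pG
  have hcount := count_le k (Lr * 2) (fun i => (X i).fp)
    (fun i => (X i).regs k ×ˢ (Finset.univ : Finset Bool)) k (Finset.range k) (Finset.range m)
    (Finset.card_range k) (by
      intro i hi
      rw [Finset.card_product]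
      exact Nat.mul_le_mul (h1 i (Finset.mem_range.1 hi)).card_regs (by simp)) (by
      intro i hi j hj hij
      rw [Finset.mem_range] at hi hj
      by_contra hcon
      obtain ⟨s, hs1, hs2⟩ := (h1 i hi).merge (h1 j hj) (hGd i j hij.ne) fun a ha b hb hab =>
        hcon ((h1 i hi).conflict (h1 j hj) (h2 i j hij hj) ha hb hab.1 hab.2)
      have e1 := hag ω s _ _ _ _ hs1 hs2
      obtain ⟨q, hq, hq2⟩ := hv i hi
      obtain ⟨q', hq', hq2'⟩ := hv j hj
      have : q = q' := hu (by rw [← hq2, ← hq2', e1])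
      subst this
      exact Finset.disjoint_left.1 (hGd i j hij.ne) hq hq') (by
      intro i _ j _ t ht h
      exact absurd (Finset.mem_range.2 ht) h)
  rw [Finset.card_range] at hcount
  omega

/-- With more than `n` available identifiers, outputs are identifiers of processors that took
part. -/
lemma active_of_solves (alg : Alg n R V I Ω) (hs : alg.SolvesIdConsensus)
    (hI : ∃ f : Fin (n + 1) → I, Function.Injective f) (u : Fin n → I) (hu : Function.Injective u)
    (ω : Fin n → Ω) (s : List (Fin n)) (i : Fin n) (a : I)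
    (h : alg.next u ω (alg.exec u ω s) i = Act.out a) : ∃ j, (j ∈ s ∨ j = i) ∧ a = u j := by
  obtain ⟨j, rfl⟩ := (hs u hu ω s).2 i a h
  refine ⟨j, ?_, rfl⟩
  by_contra hj
  rw [not_or] at hj
  obtain ⟨f, hf⟩ := hI
  obtain ⟨x, hx⟩ : ∃ x, ∀ q, u q ≠ x := by
    by_contra hcon
    push Not at hcon
    choose g hg using fun t => hcon (f t)
    have : Function.Injective g := fun a b hab => hf (by rw [← hg a, ← hg b, hab])
    have := Fintype.card_le_of_injective g this
    simp at this
  have hu' : Function.Injective (Function.update u j x) := by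
    intro a b hab
    by_cases ha : a = j <;> by_cases hb : b = j
    · rw [ha, hb]
    · subst ha
      rw [Function.update_self, Function.update_of_ne hb] at hab
      exact absurd hab.symm (hx b)
    · subst hb
      rw [Function.update_self, Function.update_of_ne ha] at hab
      exact absurd hab (hx a)
    · rw [Function.update_of_ne ha, Function.update_of_ne hb] at hab
      exact hu hab
  have hP : ∀ q, q ≠ j → alg.prog u ω q = alg.prog (Function.update u j x) ω q := by
    intro q hq
    funext h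
    simp [Alg.prog, Function.update_of_ne hq]
  have e1 : alg.exec (Function.update u j x) ω s = alg.exec u ω s := by
    rw [exec_eq, exec_eq]
    exact (runL_congr s _ fun q hq => hP q fun h => hj.1 (h ▸ hq)).symm
  have e2 : alg.next (Function.update u j x) ω (alg.exec (Function.update u j x) ω s) i =
      Act.out (u j) := by
    rw [e1, ← h]
    simp [Alg.next, Function.update_of_ne (Ne.symm hj.2)]
  obtain ⟨j', hj'⟩ := (hs _ hu' ω s).2 i _ e2
  by_cases h' : j' = j
  · subst h'
    rw [Function.update_self] at hj'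
    exact hx _ hj'
  · rw [Function.update_of_ne h'] at hj'
    exact h' (hu hj').symm

end Pool.Agent.H600Z.IdC
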