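import Pool.Agent.H600Z.IdC.Basic

/-! Certificates of short deciding executions, merging two of them, and the counting lemma. -/

open scoped Classical

noncomputable section

namespace Pool.Agent.H600Z.IdC

variable {n : ℕ} {R V I : Type}

abbrev Lab (R : Type) := Option (Option R × Bool)

structure Cert (n : ℕ) (R V I : Type) where
  p : Fin n
  a : I
  B : Finset R
  Inv : ℕ → Config n R V → Prop
  Rs : ℕ → Finset R
  Wr : ℕ → Finset R
  l : ℕ → List (Fin n)
  pat : ℕ → Lab R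

structure Good (X : Cert n R V I) (P : Prog n R V I) (C0 : Config n R V) (G : Finset (Fin n))
    (T : ℕ) : Prop where
  pG : X.p ∈ G
  inv0 : X.Inv 0 C0
  stab : ∀ g C' C'', X.Inv g C' → (∀ q ∈ G, C''.hist q = C'.hist q) →
    (∀ r ∈ X.Rs g, C''.mem r = C'.mem r) → X.Inv g C''
  prog : ∀ g < T, ∀ C', X.Inv g C' → X.Inv (g + 1) (runL P C' (X.l g)) ∧
    ∀ r ∉ X.Wr g, (runL P C' (X.l g)).mem r = C'.mem r
  lG : ∀ g < T, ∀ q ∈ X.l g, q ∈ G
  fin : ∀ C', X.Inv T C' → nx P C' X.p = Act.out X.a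
  rsT : X.Rs T = ∅
  cRs : ∀ g < T, (X.Rs g).card ≤ 2 ^ T
  cWr : ∀ g < T, (X.Wr g).card ≤ 2 ^ T
  hW : ∀ g < T, ∀ r ∈ X.Wr g, r ∈ X.B → ∃ f ≤ g, X.pat f = some (some r, true)
  hS : ∀ g < T, ∀ r ∈ X.Rs g, r ∈ X.B → ∃ b, g ≤ b ∧ b < T ∧ X.pat b = some (some r, false) ∧
    ∀ f < b, X.pat f ≠ some (some r, true)
  patB : ∀ f r w, X.pat f = some (some r, w) → r ∈ X.B

variable {P : Prog n R V I} {C0 : Config n R V} {G H : Finset (Fin n)} {T : ℕ}
  {X Y : Cert n R V I}

lemma Good.congr {P' : Prog n R V I} (h : Good X P C0 G T) (hP : ∀ q ∈ G, P q = P' q) :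
    Good X P' C0 G T := by
  refine { h with prog := ?_, fin := ?_ }
  · intro g hg C' hC'
    rw [← runL_congr (X.l g) C' fun q hq => hP q (h.lG g hg q hq)]
    exact h.prog g hg C' hC'
  · intro C' hC'
    have := h.fin C' hC'
    rwa [nx, hP _ h.pG] at this

lemma Good.solo (h : Good X P C0 G T) :
    ∃ s : List (Fin n), (∀ q ∈ s, q ∈ G) ∧ nx P (runL P C0 s) X.p = Act.out X.a := by
  have : ∀ g ≤ T, ∃ s : List (Fin n), (∀ q ∈ s, q ∈ G) ∧ X.Inv g (runL P C0 s) := by
    intro g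
    induction g with
    | zero => exact fun _ => ⟨[], by simp, h.inv0⟩
    | succ g ih =>
      intro hg
      obtain ⟨s, h1, h2⟩ := ih (by omega)
      refine ⟨s ++ X.l g, fun q hq => ?_, ?_⟩
      · rcases List.mem_append.1 hq with hq | hq
        · exact h1 q hq
        · exact h.lG g (by omega) q hq
      · rw [runL_append]
        exact (h.prog g (by omega) _ h2).1
  obtain ⟨s, h1, h2⟩ := this T le_rfl
  exact ⟨s, h1, h.fin _ h2⟩

lemma Good.other (hX : Good X P C0 G T) (hY : Good Y P C0 H T) (hd : Disjoint G H) {a b : ℕ}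
    (ha : a < T) (hno : ¬ ∃ r ∈ X.Wr a, r ∈ Y.Rs b) {C' : Config n R V} (h1 : X.Inv a C')
    (h2 : Y.Inv b C') : X.Inv (a + 1) (runL P C' (X.l a)) ∧ Y.Inv b (runL P C' (X.l a)) := by
  obtain ⟨g1, g2⟩ := hX.prog a ha C' h1
  refine ⟨g1, hY.stab b C' _ h2 (fun q hq => ?_) fun r hr => g2 r fun h => hno ⟨r, h, hr⟩⟩
  exact runL_hist_notMem _ _ fun h => Finset.disjoint_left.1 hd (hX.lG a ha q h) hq

lemma Good.merge (hX : Good X P C0 G T) (hY : Good Y P C0 H T) (hd : Disjoint G H)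
    (hno : ∀ a < T, ∀ b < T, ¬ ((∃ r ∈ X.Wr a, r ∈ Y.Rs b) ∧ ∃ r ∈ Y.Wr b, r ∈ X.Rs a)) :
    ∃ s : List (Fin n), nx P (runL P C0 s) X.p = Act.out X.a ∧
      nx P (runL P C0 s) Y.p = Act.out Y.a := by
  have : ∀ k ≤ 2 * T, ∃ a ≤ T, ∃ b ≤ T, a + b = k ∧ ∃ s : List (Fin n),
      X.Inv a (runL P C0 s) ∧ Y.Inv b (runL P C0 s) := by
    intro k
    induction k with
    | zero => exact fun _ => ⟨0, by omega, 0, by omega, rfl, [], hX.inv0, hY.inv0⟩
    | succ k ih =>
      intro hk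
      obtain ⟨a, ha, b, hb, hab, s, h1, h2⟩ := ih (by omega)
      have stepX : a < T → (¬ ∃ r ∈ X.Wr a, r ∈ Y.Rs b) → ∃ a ≤ T, ∃ b ≤ T, a + b = k + 1 ∧
          ∃ s : List (Fin n), X.Inv a (runL P C0 s) ∧ Y.Inv b (runL P C0 s) := by
        intro ha' hn
        refine ⟨a + 1, ha', b, hb, by omega, s ++ X.l a, ?_⟩
        rw [runL_append]
        exact hX.other hY hd ha' hn h1 h2
      have stepY : b < T → (¬ ∃ r ∈ Y.Wr b, r ∈ X.Rs a) → ∃ a ≤ T, ∃ b ≤ T, a + b = k + 1 ∧
          ∃ s : List (Fin n), X.Inv a (runL P C0 s) ∧ Y.Inv b (runL P C0 s) := by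
        intro hb' hn
        refine ⟨a, ha, b + 1, hb', by omega, s ++ Y.l b, ?_⟩
        rw [runL_append]
        exact (hY.other hX hd.symm hb' hn h2 h1).symm
      by_cases haT : a < T
      · by_cases hbT : b < T
        · by_cases h : ∃ r ∈ X.Wr a, r ∈ Y.Rs b
          · exact stepY hbT fun h' => hno a haT b hbT ⟨h, h'⟩
          · exact stepX haT h
        · have : b = T := by omega
          exact stepX haT (by rw [this, hY.rsT]; simp)
      · have : a = T := by omega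
        exact stepY (by omega) (by rw [this, hX.rsT]; simp)
  obtain ⟨a, ha, b, hb, hab, s, h1, h2⟩ := this (2 * T) le_rfl
  obtain rfl : a = T := by omega
  obtain rfl : b = a := by omega
  exact ⟨s, hX.fin _ h1, hY.fin _ h2⟩

def Cert.regs (X : Cert n R V I) (T : ℕ) : Finset R :=
  (Finset.range T).biUnion fun g => X.Rs g ∪ X.Wr g

lemma Good.card_regs (h : Good X P C0 G T) : (X.regs T).card ≤ T * (2 * 2 ^ T) := by
  refine Finset.card_biUnion_le.trans ?_
  calc ∑ g ∈ Finset.range T, (X.Rs g ∪ X.Wr g).card ≤ ∑ g ∈ Finset.range T, 2 * 2 ^ T := by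
        refine Finset.sum_le_sum fun g hg => ?_
        have h1 := h.cRs g (Finset.mem_range.1 hg)
        have h2 := h.cWr g (Finset.mem_range.1 hg)
        have := Finset.card_union_le (X.Rs g) (X.Wr g)
        omega
    _ = T * (2 * 2 ^ T) := by simp

def Cert.fp (X : Cert n R V I) (t : ℕ) : Option (R × Bool) :=
  match X.pat t with
  | some (some r, true) => some (r, true)
  | some (some r, false) =>
    if ∀ f < t, X.pat f ≠ some (some r, true) then some (r, false) else none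
  | _ => none

lemma Cert.fp_true (X : Cert n R V I) {t : ℕ} {r : R} :
    X.fp t = some (r, true) ↔ X.pat t = some (some r, true) := by
  unfold Cert.fp
  split
  · rename_i r' h; simp [h]
  · rename_i r' h
    rw [h]
    split_ifs <;> simp
  · rename_i h1 h2
    simp only [reduceCtorEq, false_iff]
    exact h1 r

lemma Cert.fp_false (X : Cert n R V I) {t : ℕ} {r : R} :
    X.fp t = some (r, false) ↔ X.pat t = some (some r, false) ∧
      ∀ f < t, X.pat f ≠ some (some r, true) := by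
  unfold Cert.fp
  split
  · rename_i r' h; simp [h]
  · rename_i r' h
    rw [h]
    split_ifs with h2
    · constructor
      · intro h3
        obtain rfl : r' = r := by simpa using h3
        exact ⟨rfl, h2⟩
      · rintro ⟨h3, -⟩
        obtain rfl : r' = r := by simpa using h3
        rfl
    · constructor
      · intro h3; cases h3
      · rintro ⟨h3, h4⟩
        obtain rfl : r' = r := by simpa using h3
        exact absurd h4 h2
  · rename_i h1 h2
    simp only [reduceCtorEq, false_iff, not_and]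
    exact fun h => absurd h (h2 r)

lemma Good.conflict (hX : Good X P C0 G T) (hY : Good Y P C0 H T) (hB : X.regs T ⊆ Y.B)
    {a b : ℕ} (ha : a < T) (hb : b < T) (h1 : ∃ r ∈ X.Wr a, r ∈ Y.Rs b)
    (h2 : ∃ r ∈ Y.Wr b, r ∈ X.Rs a) :
    ∃ t < T, Y.fp t ≠ X.fp t ∧ ∃ e ∈ X.regs T ×ˢ (Finset.univ : Finset Bool), Y.fp t = some e := by
  obtain ⟨r, hr1, hr2⟩ := h1
  obtain ⟨r', hr1', hr2'⟩ := h2
  have hrX : r ∈ X.regs T :=
    Finset.mem_biUnion.2 ⟨a, Finset.mem_range.2 ha, Finset.mem_union_right _ hr1⟩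
  have hrX' : r' ∈ X.regs T :=
    Finset.mem_biUnion.2 ⟨a, Finset.mem_range.2 ha, Finset.mem_union_left _ hr2'⟩
  obtain ⟨a', ha', hpa⟩ := hY.hW b hb r' hr1' (hB hrX')
  obtain ⟨b', hb1, hb2, hpb, hpb2⟩ := hY.hS b hb r hr2 (hB hrX)
  have f1 : Y.fp a' = some (r', true) := Y.fp_true.2 hpa
  have f2 : Y.fp b' = some (r, false) := Y.fp_false.2 ⟨hpb, hpb2⟩
  by_cases e1 : Y.fp a' = X.fp a'
  swap
  · exact ⟨a', by omega, e1, (r', true), by simp [hrX'], f1⟩
  by_cases e2 : Y.fp b' = X.fp b'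
  swap
  · exact ⟨b', hb2, e2, (r, false), by simp [hrX], f2⟩
  exfalso
  have g1 := X.fp_true.1 (e1 ▸ f1)
  obtain ⟨g2, g3⟩ := X.fp_false.1 (e2 ▸ f2)
  obtain ⟨a'', ha'', hq⟩ := hX.hW a ha r hr1 (hX.patB _ _ _ g2)
  obtain ⟨b'', hc1, -, hc3, hc4⟩ := hX.hS a ha r' hr2' (hX.patB _ _ _ g1)
  have k1 : ¬ a' < b'' := fun h => hc4 a' h g1
  have k2 : a' ≠ b'' := by
    rintro rfl
    rw [g1] at hc3
    simp at hc3
  have k3 : ¬ a'' < b' := fun h => g3 a'' h hq
  omega

lemma count_le {E : Type} (T M : ℕ) (fp : ℕ → ℕ → Option E) (Opt : ℕ → Finset E) :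
    ∀ (s : ℕ) (F : Finset ℕ) (J : Finset ℕ), F.card = s → (∀ i ∈ J, (Opt i).card ≤ M) →
      (∀ i ∈ J, ∀ j ∈ J, i < j → ∃ t < T, fp j t ≠ fp i t ∧ ∃ e ∈ Opt i, fp j t = some e) →
      (∀ i ∈ J, ∀ j ∈ J, ∀ t < T, t ∉ F → fp i t = fp j t) → J.card ≤ (T * M + 1) ^ s := by
  intro s
  induction s with
  | zero =>
    intro F J hF _ h1 h2
    rw [Finset.card_eq_zero] at hF
    subst hF
    rw [pow_zero, Finset.card_le_one]
    intro i hi j hj
    by_contra hne
    rcases lt_or_gt_of_ne hne with h | h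
    · obtain ⟨t, ht, h3, -⟩ := h1 i hi j hj h
      exact h3 (h2 j hj i hi t ht (by simp))
    · obtain ⟨t, ht, h3, -⟩ := h1 j hj i hi h
      exact h3 (h2 i hi j hj t ht (by simp))
  | succ s ih =>
    intro F J hF hM h1 h2
    rcases J.eq_empty_or_nonempty with rfl | hJ
    · simp
    set i := J.min' hJ with hi
    have hiJ : i ∈ J := J.min'_mem hJ
    have hsub : J.erase i ⊆ (((Finset.range T).filter (· ∈ F)) ×ˢ Opt i).biUnion
        fun te => J.filter fun j => fp j te.1 = some te.2 := by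
      intro j hj
      obtain ⟨hji, hjJ⟩ := Finset.mem_erase.1 hj
      have hlt : i < j := lt_of_le_of_ne (J.min'_le j hjJ) (Ne.symm hji)
      obtain ⟨t, ht, h3, e, he, h4⟩ := h1 i hiJ j hjJ hlt
      have htF : t ∈ F := by
        by_contra h
        exact h3 (h2 j hjJ i hiJ t ht h)
      exact Finset.mem_biUnion.2 ⟨(t, e), by simp [ht, htF, he], by simp [hjJ, h4]⟩
    have hc : (J.erase i).card ≤ (T * M) * (T * M + 1) ^ s := by
      refine (Finset.card_le_card hsub).trans (Finset.card_biUnion_le.trans ?_)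
      refine (Finset.sum_le_card_nsmul _ _ ((T * M + 1) ^ s) ?_).trans ?_
      · rintro ⟨t, e⟩ hte
        simp only [Finset.mem_product, Finset.mem_filter, Finset.mem_range] at hte
        refine ih (F.erase t) _ (by rw [Finset.card_erase_of_mem hte.1.2, hF]; rfl)
          (fun j hj => hM j (Finset.mem_filter.1 hj).1)
          (fun a ha b hb => h1 a (Finset.mem_filter.1 ha).1 b (Finset.mem_filter.1 hb).1) ?_
        intro a ha b hb t' ht' htF
        by_cases htt : t' = t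
        · subst htt
          rw [(Finset.mem_filter.1 ha).2, (Finset.mem_filter.1 hb).2]
        · exact h2 a (Finset.mem_filter.1 ha).1 b (Finset.mem_filter.1 hb).1 t' ht'
            fun h => htF (Finset.mem_erase.2 ⟨htt, h⟩)
      · rw [smul_eq_mul, Finset.card_product]
        refine Nat.mul_le_mul_right _ (Nat.mul_le_mul ?_ (hM i hiJ))
        exact (Finset.card_filter_le _ _).trans (by simp)
    have e1 := Finset.card_erase_add_one hiJ
    have e2 : 1 ≤ (T * M + 1) ^ s := Nat.one_le_pow _ _ (by omega)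
    rw [pow_succ]
    nlinarith

end Pool.Agent.H600Z.IdC
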