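import Pool.Agent.H600Z.IdC.Merge

/-! The round based scheduler: classes, frozen pools, counting of bad targets, certificates. -/

open scoped Classical

noncomputable section

namespace Pool.Agent.H600Z.IdC

variable {n : ℕ} {R V I : Type}

def lab (B : Finset R) : Shape R → Lab R
  | .read r => some (if r ∈ B then some r else none, false)
  | .write r => some (if r ∈ B then some r else none, true)
  | .done => none

def labs (B : Finset R) : Finset (Lab R) :=
  insert none (((insert none (B.image some)) ×ˢ (Finset.univ : Finset Bool)).image some)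

lemma lab_mem (B : Finset R) (s : Shape R) : lab B s ∈ labs B := by
  cases s with
  | read r => by_cases h : r ∈ B <;> simp [lab, labs, h]
  | write r => by_cases h : r ∈ B <;> simp [lab, labs, h]
  | done => simp [lab, labs]

lemma card_labs (B : Finset R) : (labs B).card ≤ 2 * B.card + 3 := by
  unfold labs
  refine (Finset.card_insert_le _ _).trans ?_
  have h1 := Finset.card_image_le (s := (insert none (B.image some)) ×ˢ (Finset.univ : Finset Bool))
    (f := (some : Option R × Bool → Lab R))
  rw [Finset.card_product] at h1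
  have h2 := Finset.card_insert_le (none : Option R) (B.image some)
  have h3 := Finset.card_image_le (s := B) (f := (some : R → Option R))
  simp only [Finset.card_univ, Fintype.card_bool] at h1
  omega

def isW : Shape R → Bool
  | .write _ => true
  | _ => false

abbrev Q (n : ℕ) := List (Fin n) × List (List (Fin n))

def cls (B : Finset R) (κ : Lab R) (v : Fin n → Shape R) (q : Q n) : List (Fin n) :=
  q.1.filter fun x => lab B (v x) = κ

def rel (v : Fin n → Shape R) (q : Q n) : List (Fin n) :=
  (q.2.filterMap List.head?).filter fun x => isW (v x)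

def rnd (B : Finset R) (T : ℕ) (κ : Lab R) (v : Fin n → Shape R) (q : Q n) :
    Q n × List (Fin n) :=
  (((cls B κ v q).drop T, (cls B κ v q).take T :: q.2.map List.tail),
    rel v q ++ (cls B κ v q).drop T)

def view (P : Prog n R V I) (C : Config n R V) : Fin n → Shape R := fun q => (nx P C q).shape

abbrev Node (n : ℕ) (R V : Type) := Config n R V × Q n

def nextK (P : Prog n R V I) (B : Finset R) (T : ℕ) (κ : Lab R) (x : Node n R V) : Node n R V :=
  (runL P x.1 (rnd B T κ (view P x.1) x.2).2, (rnd B T κ (view P x.1) x.2).1)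

def nextP (P : Prog n R V I) (B : Finset R) (T : ℕ) (p : Fin n) (x : Node n R V) : Node n R V :=
  nextK P B T (lab B (view P x.1 p)) x

variable {P : Prog n R V I} {B : Finset R} {T : ℕ}

lemma bad_count (c : ℕ) (hc : 2 ≤ c) (hB : (labs B).card ≤ c) : ∀ (k : ℕ) (x : Node n R V),
    (x.2.1.toFinset.filter fun p => p ∉ ((nextP P B T p)^[k] x).2.1).card + 2 * T ≤
      2 * T * c ^ k
  | 0, x => by
    have : (x.2.1.toFinset.filter fun p => p ∉ ((nextP P B T p)^[0] x).2.1) = ∅ := by
      ext p; simp
    rw [this]; simp
  | k + 1, x => by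
    have hsub : (x.2.1.toFinset.filter fun p => p ∉ ((nextP P B T p)^[k + 1] x).2.1) ⊆
        (labs B).biUnion fun κ => ((cls B κ (view P x.1) x.2).take T).toFinset ∪
          ((nextK P B T κ x).2.1.toFinset.filter
            fun p => p ∉ ((nextP P B T p)^[k] (nextK P B T κ x)).2.1) := by
      intro p hp
      rw [Finset.mem_filter, List.mem_toFinset, Function.iterate_succ_apply] at hp
      refine Finset.mem_biUnion.2 ⟨lab B (view P x.1 p), lab_mem _ _, ?_⟩
      have h1 : p ∈ cls B (lab B (view P x.1 p)) (view P x.1) x.2 := by simp [cls, hp.1]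
      rw [← List.take_append_drop T (cls B _ _ _), List.mem_append] at h1
      rcases h1 with h1 | h1
      · exact Finset.mem_union_left _ (List.mem_toFinset.2 h1)
      · exact Finset.mem_union_right _ (Finset.mem_filter.2 ⟨List.mem_toFinset.2 h1, hp.2⟩)
    have h2 := (Finset.card_le_card hsub).trans Finset.card_biUnion_le
    have e1 : 1 ≤ c ^ k := Nat.one_le_pow _ _ (by omega)
    obtain ⟨d, hd⟩ : ∃ d, 2 * T * c ^ k = d + 2 * T :=
      ⟨2 * T * c ^ k - 2 * T, by have := Nat.mul_le_mul_left (2 * T) e1; omega⟩
    have h3 := h2.trans (Finset.sum_le_card_nsmul _ _ (T + d) (by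
      intro κ _
      refine (Finset.card_union_le _ _).trans (Nat.add_le_add ?_ ?_)
      · exact (List.toFinset_card_le _).trans (by simp)
      · have := bad_count c hc hB k (nextK P B T κ x)
        omega))
    rw [smul_eq_mul] at h3
    have h4 := Nat.mul_le_mul_right (T + d) hB
    have h5 : 2 * T * c ^ (k + 1) = c * (d + 2 * T) := by rw [pow_succ, ← hd]; ring
    have h6 := Nat.mul_le_mul_right T hc
    nlinarith

lemma count_heads_tails (y : Fin n) : ∀ L : List (List (Fin n)),
    (L.filterMap List.head?).count y + (L.map List.tail).flatten.count y = L.flatten.count y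
  | [] => rfl
  | [] :: L => by simpa using count_heads_tails y L
  | (a :: t) :: L => by
    have := count_heads_tails y L
    simp only [List.filterMap_cons, List.head?_cons, List.count_cons, List.map_cons,
      List.tail_cons, List.flatten_cons, List.count_append, List.cons_append]
    omega

lemma count_facts (κ : Lab R) (v : Fin n → Shape R) (q : Q n) (y : Fin n) :
    (rel v q).count y + ((cls B κ v q).drop T).count y + ((cls B κ v q).take T).count y +
      (q.2.map List.tail).flatten.count y ≤ (q.1 ++ q.2.flatten).count y := by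
  have h1 := count_heads_tails y q.2
  have h2 : (rel v q).count y ≤ (q.2.filterMap List.head?).count y :=
    List.filter_sublist.count_le y
  have h3 : (cls B κ v q).count y ≤ q.1.count y := List.filter_sublist.count_le y
  have h4 : ((cls B κ v q).take T).count y + ((cls B κ v q).drop T).count y =
      (cls B κ v q).count y := by
    rw [← List.count_append, List.take_append_drop]
  rw [List.count_append]
  omega

structure NInv (P : Prog n R V I) (B : Finset R) (T : ℕ) (G : Finset (Fin n)) (pat : ℕ → Lab R)
    (r : ℕ) (x : Node n R V) : Prop where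
  nodup : (x.2.1 ++ x.2.2.flatten).Nodup
  memG : ∀ y ∈ x.2.1 ++ x.2.2.flatten, y ∈ G
  pools1 : ∀ pool ∈ x.2.2, ∃ f < r, ∀ y ∈ pool, lab B (view P x.1 y) = pat f
  pools2 : ∀ f < r, ∃ pool ∈ x.2.2, T + f + 1 ≤ pool.length + r ∧
    ∀ y ∈ pool, lab B (view P x.1 y) = pat f

variable {G : Finset (Fin n)} {pat : ℕ → Lab R} {r : ℕ} {x : Node n R V}

lemma NInv.batch_nodup (h : NInv P B T G pat r x) (κ : Lab R) :
    (rel (view P x.1) x.2 ++ (cls B κ (view P x.1) x.2).drop T).Nodup := by
  rw [List.nodup_iff_count_le_one]
  intro y
  have h1 := count_facts (B := B) (T := T) κ (view P x.1) x.2 y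
  have h2 := List.nodup_iff_count_le_one.1 h.nodup y
  rw [List.count_append]
  omega

lemma NInv.batch_mem (h : NInv P B T G pat r x) (κ : Lab R) :
    ∀ y ∈ rel (view P x.1) x.2 ++ (cls B κ (view P x.1) x.2).drop T, y ∈ G := by
  intro y hy
  apply h.memG
  have h1 := count_facts (B := B) (T := T) κ (view P x.1) x.2 y
  rw [← List.count_pos_iff] at hy ⊢
  rw [List.count_append] at hy
  omega

lemma NInv.step (h : NInv P B T G pat r x) (hne : (nextK P B T (pat r) x).2.1 ≠ []) :
    NInv P B T G pat (r + 1) (nextK P B T (pat r) x) := by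
  have hcf := count_facts (B := B) (T := T) (pat r) (view P x.1) x.2
  have hnd := List.nodup_iff_count_le_one.1 h.nodup
  have hview : ∀ y ∈ (cls B (pat r) (view P x.1) x.2).take T ++ (x.2.2.map List.tail).flatten,
      view P (nextK P B T (pat r) x).1 y = view P x.1 y := by
    intro y hy
    have : y ∉ rel (view P x.1) x.2 ++ (cls B (pat r) (view P x.1) x.2).drop T := by
      intro hy'
      rw [← List.count_pos_iff, List.count_append] at hy hy'
      have := hcf y
      have := hnd y
      omega
    simp only [view, nextK, rnd]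
    rw [nx_runL_notMem _ _ this]
  have htake : ∀ y ∈ (cls B (pat r) (view P x.1) x.2).take T,
      lab B (view P (nextK P B T (pat r) x).1 y) = pat r := by
    intro y hy
    rw [hview y (List.mem_append_left _ hy)]
    have := List.mem_of_mem_take hy
    simp only [cls, List.mem_filter, decide_eq_true_eq] at this
    exact this.2
  have htail : ∀ pool ∈ x.2.2, ∀ y ∈ pool.tail,
      view P (nextK P B T (pat r) x).1 y = view P x.1 y := by
    intro pool hp y hy
    exact hview y (List.mem_append_right _
      (List.mem_flatten.2 ⟨pool.tail, List.mem_map.2 ⟨pool, hp, rfl⟩, hy⟩))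
  refine ⟨?_, ?_, ?_, ?_⟩
  · rw [List.nodup_iff_count_le_one]
    intro y
    have := hcf y
    have := hnd y
    simp only [nextK, rnd, List.flatten_cons, List.count_append] at *
    omega
  · intro y hy
    apply h.memG
    have := hcf y
    rw [← List.count_pos_iff] at hy ⊢
    simp only [nextK, rnd, List.flatten_cons, List.count_append] at *
    omega
  · intro pool hp
    simp only [nextK, rnd, List.mem_cons, List.mem_map] at hp
    rcases hp with rfl | ⟨pool', hp, rfl⟩
    · exact ⟨r, by omega, htake⟩
    · obtain ⟨f, hf, h2⟩ := h.pools1 pool' hp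
      refine ⟨f, by omega, fun y hy => ?_⟩
      rw [htail pool' hp y hy]
      exact h2 y (List.mem_of_mem_tail hy)
  · intro f hf
    rcases Nat.lt_succ_iff_lt_or_eq.1 hf with hf | rfl
    · obtain ⟨pool, hp, h1, h2⟩ := h.pools2 f hf
      refine ⟨pool.tail, List.mem_cons_of_mem _ (List.mem_map.2 ⟨pool, hp, rfl⟩), ?_,
        fun y hy => ?_⟩
      · rw [List.length_tail]; omega
      · rw [htail pool hp y hy]
        exact h2 y (List.mem_of_mem_tail hy)
    · refine ⟨_, List.mem_cons_self, ?_, htake⟩
      have : T < (cls B (pat f) (view P x.1) x.2).length := by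
        by_contra hc
        exact hne (List.drop_eq_nil_of_le (by omega))
      rw [List.length_take]
      omega

lemma lab_write {a : Act R V I} {r : R} {v : V} (h : a = Act.write r v) (hr : r ∈ B) :
    lab B a.shape = some (some r, true) := by
  subst h; simp [Act.shape, lab, hr]

lemma lab_read {a : Act R V I} {r : R} (h : a = Act.read r) (hr : r ∈ B) :
    lab B a.shape = some (some r, false) := by
  subst h; simp [Act.shape, lab, hr]

lemma write_of_lab {a : Act R V I} {r : R} (h : lab B a.shape = some (some r, true)) :
    ∃ v, a = Act.write r v := by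
  cases a with
  | read r' => simp [Act.shape, lab] at h
  | write r' v =>
    simp only [Act.shape, lab, Option.some.injEq, Prod.mk.injEq, and_true] at h
    split_ifs at h
    obtain rfl : r' = r := by simpa using h
    exact ⟨v, rfl⟩
  | out a => simp [Act.shape, lab] at h

lemma mem_of_lab {s : Shape R} {r : R} {w : Bool} (h : lab B s = some (some r, w)) : r ∈ B := by
  cases s with
  | read r' =>
    simp only [lab, Option.some.injEq, Prod.mk.injEq] at h
    split_ifs at h with h'
    · obtain rfl : r' = r := by simpa using h.1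
      exact h'
    · simp at h
  | write r' =>
    simp only [lab, Option.some.injEq, Prod.mk.injEq] at h
    split_ifs at h with h'
    · obtain rfl : r' = r := by simpa using h.1
      exact h'
    · simp at h
  | done => simp [lab] at h

lemma same_kind (κ : Lab R) (l : List (Fin n)) (C : Config n R V)
    (h : ∀ q ∈ l, lab B (view P C q) = κ) :
    (∀ q ∈ l, ∃ r, nx P C q = Act.read r) ∨ ∀ q ∈ l, ∀ r, nx P C q ≠ Act.read r := by
  by_cases hk : ∃ o, κ = some (o, false)
  · left
    obtain ⟨o, rfl⟩ := hk
    intro q hq
    have := h q hq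
    unfold view at this
    cases h2 : nx P C q with
    | read r => exact ⟨r, rfl⟩
    | write r v => rw [h2] at this; simp [Act.shape, lab] at this
    | out a => rw [h2] at this; simp [Act.shape, lab] at this
  · right
    intro q hq r hr
    have := h q hq
    unfold view at this
    rw [hr] at this
    exact hk ⟨_, this.symm⟩

/-- The round lemma specialised to the scheduler. -/
lemma NInv.back (h : NInv P B T G pat r x) (hr : r < T) (K : Finset (Fin n)) (Rs : Finset R)
    (hK : ∀ q ∈ K, q ∈ G) :
    ∃ (K' : Finset (Fin n)) (Rs' Wr : Finset R) (l' : List (Fin n)),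
      K ⊆ K' ∧ (∀ q ∈ K', q ∈ G) ∧
      K'.card + Rs'.card ≤ 2 * (K.card + Rs.card) ∧ Wr.card ≤ K'.card ∧
      (∀ s ∈ Wr, s ∈ B → ∃ f ≤ r, pat f = some (some s, true)) ∧
      (∀ s ∈ Rs', s ∈ Rs ∨ (s ∈ B → pat r = some (some s, false) ∧
        ∀ f < r, pat f ≠ some (some s, true))) ∧
      (∀ q ∈ l', q ∈ G) ∧
      ∀ C', Sim C' x.1 K' Rs' → Sim (runL P C' l') (nextK P B T (pat r) x).1 K Rs ∧
        ∀ s ∉ Wr, (runL P C' l').mem s = C'.mem s := by
  have hsv : ∀ q ∈ (cls B (pat r) (view P x.1) x.2).drop T, lab B (view P x.1 q) = pat r := by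
    intro q hq
    have := List.mem_of_mem_drop hq
    simp only [cls, List.mem_filter, decide_eq_true_eq] at this
    exact this.2
  obtain ⟨K', Rs', Wr, l', h1, h2, h3, h4, h5, h6, h7, h8⟩ :=
    back_round (P := P) (rel (view P x.1) x.2) ((cls B (pat r) (view P x.1) x.2).drop T) x.1 K Rs
      (h.batch_nodup _) (by
        intro q hq s hs
        simp only [rel, List.mem_filter, view] at hq
        rw [hs] at hq
        simp [Act.shape, isW] at hq) (same_kind _ _ _ hsv)
  refine ⟨K', Rs', Wr, l', h1, fun q hq => ?_, h3, h4, ?_, ?_,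
    fun q hq => h.batch_mem _ q (h7 q hq), h8⟩
  · rcases h2 q hq with h' | h'
    · exact hK q h'
    · exact h.batch_mem _ q h'
  · intro s hs hsB
    obtain ⟨q, hq, v, hv⟩ := h5 s hs
    have hl := lab_write (B := B) hv hsB
    rcases List.mem_append.1 hq with hq | hq
    · simp only [rel, List.mem_filter, List.mem_filterMap] at hq
      obtain ⟨⟨pool, hp, hh⟩, -⟩ := hq
      obtain ⟨f, hf, hf2⟩ := h.pools1 pool hp
      exact ⟨f, hf.le, by rw [← hf2 q (List.mem_of_mem_head? hh)]; exact hl⟩
    · exact ⟨r, le_rfl, by rw [← hsv q hq]; exact hl⟩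
  · intro s hs
    rcases h6 s hs with h' | ⟨⟨q, hq, hqs⟩, h'⟩
    · exact Or.inl h'
    · refine Or.inr fun hsB => ⟨by rw [← hsv q hq]; exact lab_read hqs hsB, fun f hf hpf => ?_⟩
      obtain ⟨pool, hp, hlen, hl⟩ := h.pools2 f hf
      cases pool with
      | nil => simp at hlen; omega
      | cons y t =>
        have hy := hl y List.mem_cons_self
        rw [hpf] at hy
        obtain ⟨v, hv⟩ := write_of_lab hy
        refine h' y ?_ v hv
        simp only [rel, List.mem_filter, List.mem_filterMap, view]
        exact ⟨⟨y :: t, hp, rfl⟩, by rw [hv]; rfl⟩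

end Pool.Agent.H600Z.IdC
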