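import Pool.Agent.H600Z.IdC.Defs

/-!
Binary consensus with single-reader single-writer registers against an oblivious scheduler. The
third type parameter of `Alg` (input and output values) is `Bool`.
-/

open scoped ENNReal

noncomputable section

namespace Pool.Agent.H600Z.IdC.Alg

variable {n : ℕ} {R V Ω : Type} (alg : Alg n R V Bool Ω)

/-- Register `r` is written only by `wr r` and read only by `rd r`. -/
def SingleReaderWriter (wr rd : R → Fin n) : Prop :=
  ∀ q x c h, (∀ r, alg.act q x c h = Act.read r → rd r = q) ∧
    ∀ r v, alg.act q x c h = Act.write r v → wr r = q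

/-- The safety requirements of binary consensus: for all input bits, all random tapes and all
finite schedules, any two outputs are equal and every output is the input of a processor. -/
def SolvesConsensus : Prop :=
  ∀ (b : Fin n → Bool) (ω : Fin n → Ω) (s : List (Fin n)),
    (∀ i j x y, alg.next b ω (alg.exec b ω s) i = Act.out x →
      alg.next b ω (alg.exec b ω s) j = Act.out y → x = y) ∧
    (∀ i x, alg.next b ω (alg.exec b ω s) i = Act.out x → ∃ j, x = b j)

/-- The total number of steps (reads and writes) taken by all processors together under the
schedule `σ 0, σ 1, …` fixed in advance. -/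
def work (σ : ℕ → Fin n) (b : Fin n → Bool) (ω : Fin n → Ω) : ℝ≥0∞ :=
  ⨆ t : ℕ, ((∑ p, ((alg.exec b ω ((List.range t).map σ)).hist p).length : ℕ) : ℝ≥0∞)

end Pool.Agent.H600Z.IdC.Alg
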