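import Pool.Agent.H600Z.IdC.SrDefs
import Pool.Agent.H600Z.IdC.CertEx

/-! Total work lower bound for single-reader single-writer registers. -/

open scoped Classical ENNReal
open MeasureTheory

noncomputable section

namespace Pool.Agent.H600Z.IdC

variable {n : ℕ} {R V I Ω : Type} {P : Prog n R V I}

/-- registers written along a run -/
def wrs (P : Prog n R V I) : Config n R V → List (Fin n) → Finset R
  | _, [] => ∅
  | C, q :: l => wrSet (nx P C q) ∪ wrs P (st P C q) l

lemma card_wrs : ∀ (l : List (Fin n)) (C : Config n R V), (wrs P C l).card ≤ l.length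
  | [], _ => by simp [wrs]
  | q :: l, C => by
    have h1 := card_wrs l (st P C q)
    have h2 := card_wrSet (nx P C q)
    have h3 := Finset.card_union_le (wrSet (nx P C q)) (wrs P (st P C q) l)
    simp only [wrs, List.length_cons]
    omega

lemma mem_not_wrs {r : R} : ∀ (l : List (Fin n)) (C : Config n R V), r ∉ wrs P C l →
    (runL P C l).mem r = C.mem r
  | [], _, _ => rfl
  | q :: l, C, h => by
    simp only [wrs, Finset.mem_union, not_or] at h
    rw [runL_cons, mem_not_wrs l _ h.2]
    unfold st
    cases hq : nx P C q with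
    | read r' => rfl
    | out a => rfl
    | write r' v =>
      have : r ≠ r' := by
        rintro rfl
        exact h.1 (mem_wrSet.2 ⟨v, hq⟩)
      simp [Config.perform, Function.update_of_ne this]

lemma back_mixed : ∀ (l : List (Fin n)) (C : Config n R V) (K : Finset (Fin n)) (Rs : Finset R),
    l.Nodup → ∃ (K' : Finset (Fin n)) (Rs' : Finset R) (l' : List (Fin n)),
      K ⊆ K' ∧ (∀ q ∈ K', q ∈ K ∨ q ∈ l) ∧
      K'.card + Rs'.card ≤ K.card + Rs.card + (l.filter (· ∈ K)).length ∧
      (∀ q ∈ l', q ∈ K') ∧ l'.Sublist l ∧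
      ∀ C', Sim C' C K' Rs' → Sim (runL P C' l') (runL P C l) K Rs
  | [], C, K, Rs, _ =>
    ⟨K, Rs, [], subset_rfl, fun _ h => Or.inl h, by simp, by simp, by simp, fun _ h => h⟩
  | q :: t, C, K, Rs, hnd => by
    rw [List.nodup_cons] at hnd
    obtain ⟨K1, Rs1, l1, h1, h2, h5, h6, h8, h7⟩ := back_mixed t (st P C q) K Rs hnd.2
    have hlen : (t.filter (· ∈ K)).length ≤ ((q :: t).filter (· ∈ K)).length :=
      ((List.sublist_cons_self q t).filter _).length_le
    have h2' : ∀ x ∈ K1, x ∈ K ∨ x ∈ q :: t :=
      fun x hx => (h2 x hx).imp_right (List.mem_cons_of_mem _)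
    cases hq : nx P C q with
    | out a =>
      have hst : st P C q = C := by simp [st, hq, Config.perform]
      refine ⟨K1, Rs1, l1, h1, h2', by omega, h6, h8.cons _, fun C' hC' => ?_⟩
      rw [runL_cons]
      rw [hst] at h7 ⊢
      exact h7 C' hC'
    | read r =>
      have hst : st P C q = ⟨C.mem, Function.update C.hist q (some (C.mem r) :: C.hist q)⟩ := by
        simp [st, hq, Config.perform]
      by_cases hk : q ∈ K1
      · have hqK : q ∈ K := (h2 q hk).resolve_right hnd.1
        refine ⟨K1, insert r Rs1, q :: l1, h1, h2', ?_, ?_, h8.cons_cons _, fun C' hC' => ?_⟩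
        · have := Finset.card_insert_le r Rs1
          have e : ((q :: t).filter (· ∈ K)).length = (t.filter (· ∈ K)).length + 1 := by
            simp [hqK]
          omega
        · intro x hx
          rcases List.mem_cons.1 hx with rfl | hx
          · exact hk
          · exact h6 x hx
        · have hq1 : C'.hist q = C.hist q := hC'.1 q hk
          have hq' : nx P C' q = Act.read r := by rw [nx_congr hq1, hq]
          have hst' : st P C' q =
              ⟨C'.mem, Function.update C'.hist q (some (C'.mem r) :: C'.hist q)⟩ := by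
            simp [st, hq', Config.perform]
          rw [runL_cons, runL_cons]
          apply h7
          rw [hst, hst']
          refine ⟨fun x hx => ?_, fun s hs => hC'.2 s (Finset.mem_insert_of_mem hs)⟩
          by_cases hxq : x = q
          · subst hxq
            simp [hq1, hC'.2 r (Finset.mem_insert_self _ _)]
          · simp only [Function.update_of_ne hxq]
            exact hC'.1 x hx
      · refine ⟨K1, Rs1, l1, h1, h2', by omega, h6, h8.cons _, fun C' hC' => ?_⟩
        rw [runL_cons]
        apply h7
        rw [hst]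
        refine ⟨fun x hx => ?_, hC'.2⟩
        have hxq : x ≠ q := fun h => hk (h ▸ hx)
        simp only [Function.update_of_ne hxq]
        exact hC'.1 x hx
    | write r v =>
      have hst : st P C q = ⟨Function.update C.mem r v,
          Function.update C.hist q (none :: C.hist q)⟩ := by simp [st, hq, Config.perform]
      by_cases hk : q ∈ K1 ∨ r ∈ Rs1
      · refine ⟨insert q K1, Rs1.erase r, q :: l1, h1.trans (Finset.subset_insert _ _), ?_, ?_,
          ?_, h8.cons_cons _, fun C' hC' => ?_⟩
        · intro x hx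
          rcases Finset.mem_insert.1 hx with rfl | hx
          · exact Or.inr List.mem_cons_self
          · exact h2' x hx
        · rcases hk with hk | hk
          · rw [Finset.insert_eq_of_mem hk]
            have := Finset.card_erase_le (s := Rs1) (a := r)
            omega
          · have e1 := Finset.card_insert_le q K1
            have e2 := Finset.card_erase_add_one hk
            omega
        · intro x hx
          rcases List.mem_cons.1 hx with rfl | hx
          · exact Finset.mem_insert_self _ _
          · exact Finset.mem_insert_of_mem (h6 x hx)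
        · have hq1 : C'.hist q = C.hist q := hC'.1 q (Finset.mem_insert_self _ _)
          have hq' : nx P C' q = Act.write r v := by rw [nx_congr hq1, hq]
          have hst' : st P C' q = ⟨Function.update C'.mem r v,
              Function.update C'.hist q (none :: C'.hist q)⟩ := by simp [st, hq', Config.perform]
          rw [runL_cons, runL_cons]
          apply h7
          rw [hst, hst']
          constructor
          · intro x hx
            by_cases hxq : x = q
            · subst hxq; simp [hq1]
            · simp only [Function.update_of_ne hxq]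
              exact hC'.1 x (Finset.mem_insert_of_mem hx)
          · intro r' hr'
            by_cases hrr : r' = r
            · subst hrr; simp
            · simp only [Function.update_of_ne hrr]
              exact hC'.2 r' (Finset.mem_erase.2 ⟨hrr, hr'⟩)
      · rw [not_or] at hk
        refine ⟨K1, Rs1, l1, h1, h2', by omega, h6, h8.cons _, fun C' hC' => ?_⟩
        rw [runL_cons]
        apply h7
        rw [hst]
        constructor
        · intro x hx
          have hxq : x ≠ q := fun h => hk.1 (h ▸ hx)
          simp only [Function.update_of_ne hxq]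
          exact hC'.1 x hx
        · intro r' hr'
          have hrr : r' ≠ r := fun h => hk.2 (h ▸ hr')
          simp only [Function.update_of_ne hrr]
          exact hC'.2 r' hr'

lemma length_le_card {l : List (Fin n)} {K : Finset (Fin n)} (hl : l.Nodup) (h : ∀ q ∈ l, q ∈ K) :
    l.length ≤ K.card := by
  rw [← List.toFinset_card_of_nodup hl]
  exact Finset.card_le_card fun q hq => h q (List.mem_toFinset.1 hq)

/-- `t` rounds of the round-robin schedule -/
def rr (n : ℕ) : ℕ → List (Fin n)
  | 0 => []
  | t + 1 => rr n t ++ List.finRange n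

lemma back_rr (C0 : Config n R V) : ∀ (t : ℕ) (K : Finset (Fin n)) (Rs : Finset R),
    ∃ (K' : Finset (Fin n)) (s : List (Fin n)), K ⊆ K' ∧ K'.card ≤ 2 ^ t * (K.card + Rs.card) ∧
      (∀ q ∈ s, q ∈ K') ∧ s.length ≤ t * K'.card ∧
      Sim (runL P C0 s) (runL P C0 (rr n t)) K Rs
  | 0, K, Rs => ⟨K, [], subset_rfl, by simp, by simp, by simp, fun _ _ => rfl, fun _ _ => rfl⟩
  | t + 1, K, Rs => by
    obtain ⟨K1, Rs1, l1, h1, -, h3, h4, h5, h6⟩ :=
      back_mixed (P := P) (List.finRange n) (runL P C0 (rr n t)) K Rs (List.nodup_finRange n)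
    obtain ⟨K', s, g1, g2, g3, g4, g5⟩ := back_rr C0 t K1 Rs1
    have e1 : ((List.finRange n).filter (· ∈ K)).length ≤ K.card :=
      length_le_card ((List.nodup_finRange n).filter _) fun q hq => by
        simpa using (List.mem_filter.1 hq).2
    have e2 : l1.length ≤ K'.card :=
      length_le_card ((List.nodup_finRange n).sublist h5) fun q hq => g1 (h4 q hq)
    refine ⟨K', s ++ l1, h1.trans g1, ?_, fun q hq => ?_, ?_, ?_⟩
    · refine g2.trans ?_
      rw [pow_succ, mul_assoc]
      exact Nat.mul_le_mul_left _ (by omega)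
    · rcases List.mem_append.1 hq with h | h
      · exact g3 q h
      · exact g1 (h4 q h)
    · rw [List.length_append, Nat.succ_mul]
      omega
    · rw [rr, runL_append, runL_append]
      exact h6 _ g5

/-- agreement outside tainted processors `Z` and tainted registers `Y` -/
def Tn (rd : R → Fin n) (C' C : Config n R V) (Z : Finset (Fin n)) (Y : Finset R) : Prop :=
  (∀ q ∉ Z, C'.hist q = C.hist q) ∧ ∀ r ∉ Y, rd r ∉ Z → C'.mem r = C.mem r

lemma fwd (rd : R → Fin n) (hrd : ∀ C q r, nx P C q = Act.read r → rd r = q) :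
    ∀ (l : List (Fin n)) (C C' : Config n R V) (Z : Finset (Fin n)) (Y : Finset R), l.Nodup →
      Tn rd C' C Z Y → ∃ (Z' : Finset (Fin n)) (Y' : Finset R) (l' : List (Fin n)),
        Z ⊆ Z' ∧ Z'.card + Y'.card ≤ Z.card + Y.card + (l.filter (· ∈ Z)).length ∧
        (∀ q ∈ l', q ∉ Z) ∧ Tn rd (runL P C' l') (runL P C l) Z' Y'
  | [], C, C', Z, Y, _, h => ⟨Z, Y, [], subset_rfl, by simp, by simp, h⟩
  | q :: t, C, C', Z, Y, hnd, h => by
    rw [List.nodup_cons] at hnd
    have hlen : (t.filter (· ∈ Z)).length ≤ ((q :: t).filter (· ∈ Z)).length :=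
      ((List.sublist_cons_self q t).filter _).length_le
    by_cases hq : q ∈ Z
    · have h1 : Tn rd C' (st P C q) Z (Y ∪ wrSet (nx P C q)) := by
        refine ⟨fun x hx => ?_, fun r hr hr2 => ?_⟩
        · rw [st_hist_ne C (fun e : x = q => hx (e ▸ hq)), h.1 x hx]
        · rw [Finset.mem_union, not_or] at hr
          rw [h.2 r hr.1 hr2]
          exact (mem_not_wrs (P := P) [q] C (by simpa [wrs] using hr.2)).symm
      obtain ⟨Z', Y', l', g1, g2, g3, g4⟩ := fwd rd hrd t _ C' Z _ hnd.2 h1
      refine ⟨Z', Y', l', g1, ?_, g3, g4⟩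
      have e : ((q :: t).filter (· ∈ Z)).length = (t.filter (· ∈ Z)).length + 1 := by simp [hq]
      have := Finset.card_union_le Y (wrSet (nx P C q))
      have := card_wrSet (nx P C q)
      omega
    · have hq1 : C'.hist q = C.hist q := h.1 q hq
      by_cases hy : ∃ r ∈ Y, nx P C q = Act.read r
      · obtain ⟨r, hrY, hr⟩ := hy
        have h1 : Tn rd C' (st P C q) (insert q Z) (Y.erase r) := by
          refine ⟨fun x hx => ?_, fun r' hr' hr2 => ?_⟩
          · rw [Finset.mem_insert, not_or] at hx
            rw [st_hist_ne C hx.1, h.1 x hx.2]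
          · rw [Finset.mem_insert, not_or] at hr2
            have : r' ≠ r := by
              rintro rfl
              exact hr2.1 (hrd C q _ hr)
            rw [h.2 r' (fun e => hr' (Finset.mem_erase.2 ⟨this, e⟩)) hr2.2]
            simp [st, hr, Config.perform]
        obtain ⟨Z', Y', l', g1, g2, g3, g4⟩ := fwd rd hrd t _ C' _ _ hnd.2 h1
        refine ⟨Z', Y', l', (Finset.subset_insert _ _).trans g1, ?_,
          fun x hx e => g3 x hx (Finset.mem_insert_of_mem e), g4⟩
        have e1 := Finset.card_insert_le q Z
        have e2 := Finset.card_erase_add_one hrY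
        have e3 : t.filter (· ∈ insert q Z) = t.filter (· ∈ Z) := by
          refine List.filter_congr fun x hx => ?_
          have : x ≠ q := fun e => hnd.1 (e ▸ hx)
          simp [this]
        rw [e3] at g2
        omega
      · have h1 : Tn rd (st P C' q) (st P C q) Z Y := by
          unfold st
          rw [nx_congr hq1]
          cases ha : nx P C q with
          | out a => exact h
          | read r =>
            have hr : C'.mem r = C.mem r :=
              h.2 r (fun e => hy ⟨r, e, ha⟩) (by rw [hrd C q r ha]; exact hq)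
            refine ⟨fun x hx => ?_, h.2⟩
            by_cases hxq : x = q
            · subst hxq; simp [Config.perform, hq1, hr]
            · simp only [Config.perform, Function.update_of_ne hxq]
              exact h.1 x hx
          | write r v =>
            refine ⟨fun x hx => ?_, fun r' hr' hr2 => ?_⟩
            · by_cases hxq : x = q
              · subst hxq; simp [Config.perform, hq1]
              · simp only [Config.perform, Function.update_of_ne hxq]
                exact h.1 x hx
            · by_cases hrr : r' = r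
              · subst hrr; simp [Config.perform]
              · simp only [Config.perform, Function.update_of_ne hrr]
                exact h.2 r' hr' hr2
        obtain ⟨Z', Y', l', g1, g2, g3, g4⟩ := fwd rd hrd t _ _ Z Y hnd.2 h1
        refine ⟨Z', Y', q :: l', g1, by omega, fun x hx => ?_, g4⟩
        rcases List.mem_cons.1 hx with rfl | hx
        · exact hq
        · exact g3 x hx

lemma fwd_rr (rd : R → Fin n) (hrd : ∀ C q r, nx P C q = Act.read r → rd r = q)
    (C C' : Config n R V) (Z : Finset (Fin n)) (h : Tn rd C' C Z ∅) : ∀ t : ℕ,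
    ∃ (Z' : Finset (Fin n)) (Y' : Finset R) (l' : List (Fin n)),
      Z ⊆ Z' ∧ Z'.card + Y'.card ≤ 2 ^ t * Z.card ∧ (∀ q ∈ l', q ∉ Z) ∧
      Tn rd (runL P C' l') (runL P C (rr n t)) Z' Y'
  | 0 => ⟨Z, ∅, [], subset_rfl, by simp, by simp, h⟩
  | t + 1 => by
    obtain ⟨Z1, Y1, l1, h1, h2, h3, h4⟩ := fwd_rr rd hrd C C' Z h t
    obtain ⟨Z', Y', l', g1, g2, g3, g4⟩ :=
      fwd rd hrd (List.finRange n) _ _ Z1 Y1 (List.nodup_finRange n) h4
    have e1 : ((List.finRange n).filter (· ∈ Z1)).length ≤ Z1.card :=
      length_le_card ((List.nodup_finRange n).filter _) fun q hq => by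
        simpa using (List.mem_filter.1 hq).2
    refine ⟨Z', Y', l1 ++ l', h1.trans g1, ?_, fun q hq => ?_, ?_⟩
    · rw [pow_succ]
      have : 2 ^ t * 2 * Z.card = 2 * (2 ^ t * Z.card) := by ring
      omega
    · rcases List.mem_append.1 hq with h' | h'
      · exact h3 q h'
      · exact fun e => g3 q h' (h1 e)
    · rw [rr, runL_append, runL_append]
      exact g4

lemma rr_len (C0 : Config n R V) (p : Fin n) : ∀ t : ℕ,
    (∀ a, nx P (runL P C0 (rr n t)) p ≠ Act.out a) → t ≤ ((runL P C0 (rr n t)).hist p).length
  | 0, _ => Nat.zero_le _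
  | t + 1, h => by
    rw [rr, runL_append] at h ⊢
    have h1 : ∀ a, nx P (runL P C0 (rr n t)) p ≠ Act.out a := fun a ha => h a (runL_out _ _ ha)
    have h2 := rr_len C0 p t h1
    have h3 := runL_len_lt (P := P) _ _ (List.mem_finRange p) h1
    omega

lemma rr_eq (hn : 0 < n) : ∀ t : ℕ,
    (List.range (t * n)).map (fun i => (⟨i % n, Nat.mod_lt _ hn⟩ : Fin n)) = rr n t
  | 0 => by simp [rr]
  | t + 1 => by
    rw [rr, ← rr_eq hn t, Nat.succ_mul, List.range_add, List.map_append, List.map_map]
    congr 1
    apply List.ext_getElem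
    · simp
    · intro i h1 h2
      have hi : i < n := by simpa using h2
      simp [Nat.mod_eq_of_lt hi]

lemma many_out (alg : Alg n R V Bool Ω) [MeasurableSpace Ω] (μ : Measure (Fin n → Ω))
    [IsProbabilityMeasure μ] (hn : 0 < n) (t : ℕ) (b : Fin n → Bool)
    (h : ∫⁻ ω, alg.work (fun i => ⟨i % n, Nat.mod_lt _ hn⟩) b ω ∂μ < (n * t : ℝ≥0∞) / 2) :
    ∃ ω, n < 2 * (Finset.univ.filter fun p => ∃ a,
      nx (alg.prog b ω) (runL (alg.prog b ω) alg.start (rr n t)) p = Act.out a).card := by
  by_contra hno
  push Not at hno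
  refine absurd h (not_lt.2 (le_trans (by simp) (lintegral_mono
    (f := fun _ => (n * t : ℝ≥0∞) / 2) fun ω => ?_)))
  refine le_iSup_of_le (t * n) ?_
  rw [rr_eq hn, exec_eq]
  set C := runL (alg.prog b ω) alg.start (rr n t) with hC
  have h1 := hno ω
  have h2 := Finset.card_filter_add_card_filter_not (s := (Finset.univ : Finset (Fin n)))
    (fun p => ∃ a, nx (alg.prog b ω) C p = Act.out a)
  rw [Finset.card_univ, Fintype.card_fin] at h2
  have h3 : (Finset.univ.filter fun p => ¬ ∃ a, nx (alg.prog b ω) C p = Act.out a).card * t ≤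
      ∑ p, (C.hist p).length := by
    rw [← smul_eq_mul, ← Finset.sum_const]
    refine le_trans (Finset.sum_le_sum fun p hp => ?_)
      (Finset.sum_le_sum_of_subset (Finset.filter_subset _ _))
    exact rr_len _ p t fun a ha => (Finset.mem_filter.1 hp).2 ⟨a, ha⟩
  have h4 : n * t ≤ (∑ p, (C.hist p).length) * 2 := by
    rw [← hC] at h1
    have : n ≤ 2 * (Finset.univ.filter fun p =>
      ¬ ∃ a, nx (alg.prog b ω) C p = Act.out a).card := by omega
    nlinarith
  refine ENNReal.div_le_of_le_mul ?_
  exact_mod_cast h4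

theorem sr_main (t : ℕ) (hn : 2 * (t + 1) * 4 ^ t ≤ n) (alg : Alg n R V Bool Ω)
    [MeasurableSpace Ω] (μ : Measure (Fin n → Ω)) [IsProbabilityMeasure μ] (wr rd : R → Fin n)
    (hsr : alg.SingleReaderWriter wr rd) (hs : alg.SolvesConsensus) :
    ∃ (b : Fin n → Bool) (σ : ℕ → Fin n), (n * t : ℝ≥0∞) / 2 ≤ ∫⁻ ω, alg.work σ b ω ∂μ := by
  have hn0 : 0 < n := lt_of_lt_of_le (by positivity) hn
  by_contra hno
  push Not at hno
  obtain ⟨ω0, h0⟩ := many_out alg μ hn0 t (fun _ => false) (hno _ _)
  obtain ⟨ω1, h1⟩ := many_out alg μ hn0 t (fun _ => true) (hno _ _)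
  obtain ⟨p, hp⟩ : (Finset.univ.filter fun p => ∃ a, nx (alg.prog (fun _ => false) ω0)
      (runL (alg.prog (fun _ => false) ω0) alg.start (rr n t)) p = Act.out a).Nonempty := by
    rw [← Finset.card_pos]; omega
  obtain ⟨a, ha⟩ := (Finset.mem_filter.1 hp).2
  obtain ⟨_, rfl⟩ := (hs (fun _ => false) ω0 (rr n t)).2 p a ha
  obtain ⟨K, s, k1, k2, k3, k4, k5⟩ :=
    back_rr (P := alg.prog (fun _ => false) ω0) alg.start t {p} ∅
  have hpK : p ∈ K := k1 (Finset.mem_singleton_self p)
  set C0 := runL (alg.prog (fun _ => false) ω0) alg.start s with hC0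
  set W := wrs (alg.prog (fun _ => false) ω0) alg.start s with hW
  have hWc : W.card ≤ s.length := card_wrs _ _
  have hTn : Tn rd C0 alg.start (K ∪ W.image rd) ∅ := by
    refine ⟨fun q hq => runL_hist_notMem _ _ fun h => hq (Finset.mem_union_left _ (k3 q h)),
      fun r _ hr => mem_not_wrs _ _ fun h => hr ?_⟩
    exact Finset.mem_union_right _ (Finset.mem_image_of_mem _ h)
  obtain ⟨Z, Y, l, z1, z2, z3, z4⟩ := fwd_rr (P := alg.prog (fun _ => true) ω1) rd
    (fun C q r h => (hsr q _ _ _).1 r h) alg.start C0 _ hTn t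
  have hZ : 2 * Z.card ≤ n := by
    have e1 := Finset.card_union_le K (W.image rd)
    have e2 := Finset.card_image_le (s := W) (f := rd)
    simp only [Finset.card_singleton, Finset.card_empty, add_zero, mul_one] at k2
    have e3 : (K ∪ W.image rd).card ≤ (t + 1) * 2 ^ t := by
      have := Nat.mul_le_mul_left (t + 1) k2
      rw [Nat.succ_mul] at this
      omega
    have e4 := Nat.mul_le_mul_left (2 ^ t) e3
    have e5 : 2 * (t + 1) * 4 ^ t = 2 * (2 ^ t * ((t + 1) * 2 ^ t)) := by
      rw [show (4 : ℕ) = 2 * 2 from rfl, mul_pow]; ring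
    omega
  obtain ⟨q, hq, hqZ⟩ : ∃ q ∈ (Finset.univ.filter fun p => ∃ a, nx (alg.prog (fun _ => true) ω1)
      (runL (alg.prog (fun _ => true) ω1) alg.start (rr n t)) p = Act.out a), q ∉ Z :=
    Finset.exists_mem_notMem_of_card_lt_card (by omega)
  obtain ⟨a', ha'⟩ := (Finset.mem_filter.1 hq).2
  obtain ⟨_, rfl⟩ := (hs (fun _ => true) ω1 (rr n t)).2 q a' ha'
  let b : Fin n → Bool := fun x => if x ∈ K then false else true
  let ω : Fin n → Ω := fun x => if x ∈ K then ω0 x else ω1 x
  have hP0 : ∀ x ∈ K, alg.prog (fun _ => false) ω0 x = alg.prog b ω x := by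
    intro x hx; funext h; simp [Alg.prog, b, ω, hx]
  have hP1 : ∀ x ∉ K, alg.prog (fun _ => true) ω1 x = alg.prog b ω x := by
    intro x hx; funext h; simp [Alg.prog, b, ω, hx]
  have e1 : alg.exec b ω (s ++ l) = runL (alg.prog (fun _ => true) ω1) C0 l := by
    rw [exec_eq, runL_append, ← runL_congr s _ fun x hx => hP0 x (k3 x hx),
      ← runL_congr l _ fun x hx => hP1 x fun e => z3 x hx (Finset.mem_union_left _ e)]
  have e2 : alg.next b ω (alg.exec b ω (s ++ l)) p = Act.out false := by
    rw [e1, next_eq, nx, ← hP0 p hpK,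
      runL_hist_notMem _ _ fun h => z3 p h (Finset.mem_union_left _ hpK),
      k5.1 p (Finset.mem_singleton_self p)]
    exact ha
  have e3 : alg.next b ω (alg.exec b ω (s ++ l)) q = Act.out true := by
    rw [e1, next_eq, nx, ← hP1 q fun h => hqZ (z1 (Finset.mem_union_left _ h)), z4.1 q hqZ]
    exact ha'
  exact absurd ((hs b ω (s ++ l)).1 p q _ _ e2 e3) (by simp)

end Pool.Agent.H600Z.IdC
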